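import Mathlib
import Pool.Agent.Work.MP_787500_nt.KS.Alg
import Pool.Agent.Work.MP_787500_nt.KS.LA

/-!
The Kramer step for the symplectic group: a symplectic form `ee` on `F ^ n` over a perfect field of
characteristic 2, a quadratic form `qq` with polar form `ee`, the correction cocycle `kk` and its secondary
class `mm` on the symplectic group.
-/

set_option autoImplicit false
set_option linter.unusedSectionVars false

namespace Pool.Agent.Work.MP_787500_nt.KT

open Matrix
open Pool.Agent.Work.MP_787500_nt.KS (rt rt_sq sq_inj rt_of_sq ann mem_ann finrank_ann ann_ann sym_rank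
  alt_even)

/-- a symplectic form on `F ^ n` -/
class Sy (F : Type*) [Field F] (n : ℕ) where
  /-- the form -/
  e : (Fin n → F) →ₗ[F] (Fin n → F) →ₗ[F] F
  alt : ∀ x, e x x = 0
  nd : ∀ x, (∀ y, e x y = 0) → x = 0

variable {F : Type*} [Field F] {n : ℕ}

/-- the symplectic form -/
def ee [Sy F n] (x y : Fin n → F) : F := Sy.e x y

/-- the symplectic group -/
def IsSp [Sy F n] (g : Matrix (Fin n) (Fin n) F) : Prop := ∀ x y, ee (g *ᵥ x) (g *ᵥ y) = ee x y

section gen

variable [Sy F n]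

theorem ee_add_left (x y z : Fin n → F) : ee (x + y) z = ee x z + ee y z := by
  show Sy.e (x + y) z = _
  rw [map_add]; rfl

theorem ee_add_right (x y z : Fin n → F) : ee x (y + z) = ee x y + ee x z := by
  show Sy.e x (y + z) = _
  rw [map_add]; rfl

theorem ee_smul_left (a : F) (x y : Fin n → F) : ee (a • x) y = a * ee x y := by
  show Sy.e (a • x) y = _
  rw [map_smul]; rfl

theorem ee_smul_right (a : F) (x y : Fin n → F) : ee x (a • y) = a * ee x y := by
  show Sy.e x (a • y) = _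
  rw [map_smul]; rfl

theorem ee_zero_left (x : Fin n → F) : ee 0 x = 0 := by
  show Sy.e (0 : Fin n → F) x = _
  rw [map_zero]; rfl

theorem ee_zero_right (x : Fin n → F) : ee x 0 = 0 := by
  show Sy.e x (0 : Fin n → F) = _
  rw [map_zero]

theorem ee_self (x : Fin n → F) : ee x x = 0 := Sy.alt x

theorem ee_nondeg {x : Fin n → F} (h : ∀ y, ee x y = 0) : x = 0 := Sy.nd x h

theorem isSp_one : IsSp (1 : Matrix (Fin n) (Fin n) F) := fun x y => by rw [one_mulVec, one_mulVec]

theorem isSp_mul {g h : Matrix (Fin n) (Fin n) F} (hg : IsSp g) (hh : IsSp h) : IsSp (g * h) :=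
  fun x y => by rw [← mulVec_mulVec, ← mulVec_mulVec, hg, hh]

theorem isSp_pow {g : Matrix (Fin n) (Fin n) F} (hg : IsSp g) (m : ℕ) : IsSp (g ^ m) := by
  induction m with
  | zero => rw [pow_zero]; exact isSp_one
  | succ m ih => rw [pow_succ]; exact isSp_mul ih hg

theorem ee_mulVec {g : Matrix (Fin n) (Fin n) F} (hg : IsSp g) (x y : Fin n → F) :
    ee (g *ᵥ x) (g *ᵥ y) = ee x y := hg x y

theorem sp_inj {g : Matrix (Fin n) (Fin n) F} (hg : IsSp g) {x : Fin n → F} (h : g *ᵥ x = 0) :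
    x = 0 := ee_nondeg fun y => by rw [← hg, h, ee_zero_left]

theorem sp_surj {g : Matrix (Fin n) (Fin n) F} (hg : IsSp g) (y : Fin n → F) : ∃ x, g *ᵥ x = y := by
  have h1 : Function.Injective (Matrix.mulVecLin g) := by
    rw [injective_iff_map_eq_zero]
    intro x hx
    exact sp_inj hg hx
  obtain ⟨x, hx⟩ := (LinearMap.injective_iff_surjective.1 h1) y
  exact ⟨x, hx⟩

end gen

variable [CharP F 2]

theorem add_self (x : F) : x + x = 0 := CharTwo.add_self_eq_zero x

theorem sq_add (x y : F) : (x + y) ^ 2 = x ^ 2 + y ^ 2 := CharTwo.add_sq x y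

section char

variable [Sy F n]

theorem U_add_self (u : Fin n → F) : u + u = 0 := by
  ext l
  exact add_self (u l)

theorem U_cancel {u v w : Fin n → F} (h : u + v = w) : u = v + w := by
  rw [← h, add_comm u v, ← add_assoc, U_add_self, zero_add]

theorem ee_comm (x y : Fin n → F) : ee x y = ee y x := by
  have h := ee_self (x + y)
  rw [ee_add_left, ee_add_right, ee_add_right, ee_self, ee_self, zero_add, add_zero] at h
  have h2 := add_self (ee y x)
  linear_combination h - h2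

theorem e_symm (x y : Fin n → F) : (Sy.e x y : F) = Sy.e y x := ee_comm x y

theorem ker_e : LinearMap.ker (Sy.e : (Fin n → F) →ₗ[F] (Fin n → F) →ₗ[F] F) = ⊥ := by
  rw [eq_bot_iff]
  intro x hx
  rw [LinearMap.mem_ker] at hx
  rw [Submodule.mem_bot]
  exact ee_nondeg fun y => by
    show Sy.e x y = 0
    rw [hx]; rfl

theorem exists_ee (l : (Fin n → F) →ₗ[F] F) : ∃ k, ∀ x, ee k x = l x := by
  have h1 : Function.Injective (Sy.e : (Fin n → F) →ₗ[F] (Fin n → F) →ₗ[F] F) :=
    LinearMap.ker_eq_bot.1 ker_e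
  have h2 : Module.finrank F (Fin n → F) = Module.finrank F ((Fin n → F) →ₗ[F] F) :=
    (Subspace.dual_finrank_eq (K := F) (V := Fin n → F)).symm
  obtain ⟨k, hk⟩ := ((LinearMap.injective_iff_surjective_of_finrank_eq_finrank h2).1 h1) l
  exact ⟨k, fun x => by
    show Sy.e k x = l x
    rw [hk]⟩

theorem n_even (F : Type*) [Field F] [CharP F 2] (n : ℕ) [Sy F n] : Even n := by
  obtain ⟨m, hm⟩ := alt_even (Sy.e : (Fin n → F) →ₗ[F] (Fin n → F) →ₗ[F] F) Sy.alt
  rw [ker_e, finrank_bot, Module.finrank_fin_fun, zero_add] at hm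
  exact ⟨m, by omega⟩

theorem n_cast (F : Type*) [Field F] [CharP F 2] (n : ℕ) [Sy F n] : (n : F) = 0 := by
  obtain ⟨m, hm⟩ := n_even F n
  rw [hm]
  push_cast
  exact add_self _

/-! ### The quadratic form -/

theorem exists_up : ∃ c : (Fin n → F) →ₗ[F] (Fin n → F) →ₗ[F] F,
    ∀ x y, ee x y = c x y + c y x := by
  let E : Matrix (Fin n) (Fin n) F := LinearMap.toMatrix₂' F (Sy.e : (Fin n → F) →ₗ[F] _)
  let M : Matrix (Fin n) (Fin n) F := fun i j => if i < j then E i j else 0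
  have hE : ∀ i j, E i j = E j i := by
    intro i j
    show LinearMap.toMatrix₂' F Sy.e i j = LinearMap.toMatrix₂' F Sy.e j i
    rw [LinearMap.toMatrix₂'_apply, LinearMap.toMatrix₂'_apply]
    exact e_symm _ _
  have hE0 : ∀ i, E i i = 0 := by
    intro i
    show LinearMap.toMatrix₂' F Sy.e i i = 0
    rw [LinearMap.toMatrix₂'_apply]
    exact Sy.alt _
  have hM : E = M + Mᵀ := by
    ext i j
    show E i j = M i j + M j i
    show E i j = (if i < j then E i j else 0) + (if j < i then E j i else 0)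
    rcases lt_trichotomy i j with h | h | h
    · rw [if_pos h, if_neg (not_lt.2 h.le), add_zero]
    · subst h
      rw [if_neg (lt_irrefl _), hE0, add_zero]
    · rw [if_neg (not_lt.2 h.le), if_pos h, zero_add, hE]
  refine ⟨Matrix.toLinearMap₂' F M, fun x y => ?_⟩
  have h1 : (Sy.e : (Fin n → F) →ₗ[F] (Fin n → F) →ₗ[F] F) = Matrix.toLinearMap₂' F E :=
    (Matrix.toLinearMap₂'_toMatrix' (R := F) _).symm
  show Sy.e x y = _
  rw [h1, Matrix.toLinearMap₂'_apply', Matrix.toLinearMap₂'_apply', Matrix.toLinearMap₂'_apply', hM,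
    add_mulVec, dotProduct_add]
  congr 1
  rw [mulVec_transpose, dotProduct_comm, ← dotProduct_mulVec]

variable (F n) in
/-- the upper half of the form -/
noncomputable def up : (Fin n → F) →ₗ[F] (Fin n → F) →ₗ[F] F := (exists_up (F := F) (n := n)).choose

theorem ee_up (x y : Fin n → F) : ee x y = up F n x y + up F n y x :=
  (exists_up (F := F) (n := n)).choose_spec x y

/-- the quadratic form -/
noncomputable def qq (x : Fin n → F) : F := up F n x x

theorem qq_add (x y : Fin n → F) : qq (x + y) = qq x + qq y + ee x y := by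
  unfold qq
  simp only [ee_up, map_add, LinearMap.add_apply]
  ring

theorem qq_smul (a : F) (x : Fin n → F) : qq (a • x) = a ^ 2 * qq x := by
  unfold qq
  rw [map_smul, map_smul, LinearMap.smul_apply, smul_eq_mul, smul_eq_mul]
  ring

theorem qq_zero : qq (0 : Fin n → F) = 0 := by
  unfold qq
  rw [map_zero]

/-! ### Fixed vectors -/

/-- the fixed vectors -/
def fixv (g : Matrix (Fin n) (Fin n) F) : Submodule F (Fin n → F) where
  carrier := {u | g *ᵥ u = u}
  add_mem' := by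
    intro a b ha hb
    change g *ᵥ a = a at ha
    change g *ᵥ b = b at hb
    change g *ᵥ (a + b) = a + b
    rw [mulVec_add, ha, hb]
  zero_mem' := mulVec_zero g
  smul_mem' := by
    intro c a ha
    change g *ᵥ a = a at ha
    change g *ᵥ (c • a) = c • a
    rw [mulVec_smul, ha]

theorem mem_fixv {g : Matrix (Fin n) (Fin n) F} {u : Fin n → F} : u ∈ fixv g ↔ g *ᵥ u = u :=
  Iff.rfl

/-- `g - 1` -/
def sb (g : Matrix (Fin n) (Fin n) F) : (Fin n → F) →ₗ[F] (Fin n → F) :=
  Matrix.mulVecLin g + LinearMap.id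

theorem sb_apply (g : Matrix (Fin n) (Fin n) F) (x : Fin n → F) : sb g x = g *ᵥ x + x := rfl

variable {g h : Matrix (Fin n) (Fin n) F}

theorem ann_sb (hg : IsSp g) :
    ann (Sy.e : (Fin n → F) →ₗ[F] (Fin n → F) →ₗ[F] F) (LinearMap.range (sb g)) = fixv g := by
  ext y
  rw [mem_ann, mem_fixv]
  constructor
  · intro hy
    have h1 : g *ᵥ y + y = 0 := by
      refine ee_nondeg fun z => ?_
      obtain ⟨x, rfl⟩ := sp_surj hg z
      have h2 : ee y (g *ᵥ x + x) = 0 := hy _ ⟨x, rfl⟩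
      rw [ee_add_right] at h2
      rw [ee_add_left, ee_mulVec hg, add_comm]
      exact h2
    have h3 := U_cancel h1
    rwa [add_zero] at h3
  · rintro hy _ ⟨x, rfl⟩
    show ee y (g *ᵥ x + x) = 0
    rw [ee_add_right]
    nth_rewrite 1 [← hy]
    rw [ee_mulVec hg, add_self]

theorem range_sb (hg : IsSp g) {y : Fin n → F} (hy : ∀ x ∈ fixv g, ee y x = 0) :
    ∃ x, g *ᵥ x + x = y := by
  have h1 := ann_ann (b := (Sy.e : (Fin n → F) →ₗ[F] (Fin n → F) →ₗ[F] F)) e_symm
    (N := LinearMap.range (sb g)) (by rw [ker_e]; exact bot_le)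
  rw [ann_sb hg] at h1
  have h2 : y ∈ LinearMap.range (sb g) := by
    rw [← h1]
    exact hy
  exact h2

end char

variable [PerfectRing F 2] [Sy F n] {g h : Matrix (Fin n) (Fin n) F}

/-! ### The correction cocycle -/

theorem exists_kk (hg : IsSp g) : ∃ k, ∀ u, qq (g *ᵥ u) + qq u = ee k (g *ᵥ u) ^ 2 := by
  let l : (Fin n → F) →ₗ[F] F :=
    { toFun := fun u => rt (qq (g *ᵥ u) + qq u)
      map_add' := by
        intro x y
        rw [← map_add]
        congr 1
        rw [mulVec_add, qq_add, qq_add, ee_mulVec hg]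
        linear_combination add_self (ee x y)
      map_smul' := by
        intro a x
        show rt (qq (g *ᵥ (a • x)) + qq (a • x)) = a * rt (qq (g *ᵥ x) + qq x)
        rw [mulVec_smul, qq_smul, qq_smul, ← mul_add, map_mul, rt_of_sq] }
  obtain ⟨k, hk⟩ := exists_ee l
  refine ⟨g *ᵥ k, fun u => ?_⟩
  rw [ee_mulVec hg, hk]
  exact (rt_sq _).symm

open scoped Classical in
/-- the correction cocycle -/
noncomputable def kk (g : Matrix (Fin n) (Fin n) F) : Fin n → F :=
  if h : ∃ k, ∀ u, qq (g *ᵥ u) + qq u = ee k (g *ᵥ u) ^ 2 then h.choose else 0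

theorem qq_mulVec (hg : IsSp g) (u : Fin n → F) :
    qq (g *ᵥ u) + qq u = ee (kk g) (g *ᵥ u) ^ 2 := by
  have h := exists_kk hg
  unfold kk
  rw [dif_pos h]
  exact h.choose_spec u

theorem kk_unique (hg : IsSp g) {k : Fin n → F}
    (hk : ∀ u, qq (g *ᵥ u) + qq u = ee k (g *ᵥ u) ^ 2) : kk g = k := by
  have h1 : kk g + k = 0 := by
    refine ee_nondeg fun y => ?_
    obtain ⟨x, rfl⟩ := sp_surj hg y
    have h2 : ee (kk g) (g *ᵥ x) = ee k (g *ᵥ x) := sq_inj (by rw [← qq_mulVec hg, hk])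
    rw [ee_add_left, h2, add_self]
  have h3 := U_cancel h1
  rwa [add_zero] at h3

theorem kk_one : kk (1 : Matrix (Fin n) (Fin n) F) = 0 :=
  kk_unique isSp_one fun u => by
    rw [one_mulVec, ee_zero_left, add_self]
    ring

theorem kk_mul (hg : IsSp g) (hh : IsSp h) : kk (g * h) = kk g + g *ᵥ kk h := by
  refine kk_unique (isSp_mul hg hh) fun u => ?_
  rw [ee_add_left, sq_add, ← mulVec_mulVec, ee_mulVec hg, ← qq_mulVec hg, ← qq_mulVec hh]
  linear_combination -add_self (qq (h *ᵥ u))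

theorem kk_fix (hg : IsSp g) : ∃ v, g *ᵥ v + kk g = v := by
  obtain ⟨v, hv⟩ := range_sb hg (y := kk g) fun x hx => by
    have h1 := qq_mulVec hg x
    rw [mem_fixv.1 hx, add_self] at h1
    exact pow_eq_zero_iff (two_ne_zero) |>.1 h1.symm
  refine ⟨v, ?_⟩
  rw [← hv, ← add_assoc, U_add_self, zero_add]

theorem kk_of_fix {v : Fin n → F} (hv : g *ᵥ v + kk g = v) : kk g = g *ᵥ v + v := by
  have h : g *ᵥ v + (g *ᵥ v + kk g) = g *ᵥ v + v := by rw [hv]
  rwa [← add_assoc, U_add_self, zero_add] at h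

theorem fix_of_kk {v : Fin n → F} (hv : kk g = g *ᵥ v + v) : g *ᵥ v + kk g = v := by
  rw [hv, ← add_assoc, U_add_self, zero_add]

theorem tau_indep (hg : IsSp g) {v w : Fin n → F} (hv : g *ᵥ v + kk g = v)
    (hw : g *ᵥ w + kk g = w) : ee v (g *ᵥ v) = ee w (g *ᵥ w) := by
  have h1 := kk_of_fix hv
  have h2 := kk_of_fix hw
  have h3 : g *ᵥ (v + w) = v + w := by
    rw [mulVec_add]
    rw [h2] at h1
    have h4 : g *ᵥ w = g *ᵥ v + v + w := by rw [← h1, add_assoc, U_add_self, add_zero]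
    rw [h4, ← add_assoc, ← add_assoc, U_add_self, zero_add]
  have h5 : v = w + (v + w) := by
    rw [add_comm v w, ← add_assoc, U_add_self, zero_add]
  have h6 : g *ᵥ v = g *ᵥ w + (v + w) := by
    conv_lhs => rw [h5]
    rw [mulVec_add, h3]
  have h7 : ee (v + w) (g *ᵥ w) = ee (v + w) w := by
    conv_lhs => rw [← h3]
    rw [ee_mulVec hg]
  have h8 : ee v (g *ᵥ v) = ee (w + (v + w)) (g *ᵥ w + (v + w)) := by rw [← h5, ← h6]
  rw [h8]
  simp only [ee_add_left, ee_add_right, ee_self, ee_comm w v] at h7 ⊢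
  linear_combination (norm := (ring_nf; reduce_mod_char!)) h7

/-- a vector `v` with `kk g = g v + v` -/
noncomputable def vv (g : Matrix (Fin n) (Fin n) F) : Fin n → F :=
  open scoped Classical in if h : ∃ v, g *ᵥ v + kk g = v then h.choose else 0

theorem vv_spec (hg : IsSp g) : g *ᵥ vv g + kk g = vv g := by
  have h := kk_fix hg
  unfold vv
  rw [dif_pos h]
  exact h.choose_spec

/-- the secondary class -/
noncomputable def mm (g : Matrix (Fin n) (Fin n) F) : F :=
  (Module.finrank F (fixv g) : F) + ee (vv g) (g *ᵥ vv g)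

theorem tau_eq (hg : IsSp g) {v : Fin n → F} (hv : g *ᵥ v + kk g = v) :
    ee v (g *ᵥ v) + mm g = (Module.finrank F (fixv g) : F) := by
  unfold mm
  rw [tau_indep hg hv (vv_spec hg), add_comm, add_assoc, add_self, add_zero]

/-! ### The cocycle identity -/

/-- the space of pairs -/
def prS2 (g h : Matrix (Fin n) (Fin n) F) : Submodule F ((Fin n → F) × (Fin n → F)) :=
  LinearMap.ker ((sb g).coprod (sb (g * h)))

theorem mem_prS2 {a b : Fin n → F} : (a, b) ∈ prS2 g h ↔ g *ᵥ a + a = (g * h) *ᵥ b + b := by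
  unfold prS2
  rw [LinearMap.mem_ker, LinearMap.coprod_apply, sb_apply, sb_apply]
  constructor
  · intro h1
    have h2 := U_cancel h1
    rwa [add_zero] at h2
  · intro h1
    rw [h1]
    exact U_add_self _

theorem mem_prS2' {a b : Fin n → F} : (a, b) ∈ prS2 g h ↔ a + b = g *ᵥ (a + h *ᵥ b) := by
  rw [mem_prS2, mulVec_add, mulVec_mulVec]
  constructor
  · intro h1
    have h2 := U_cancel h1
    rw [h2]
    have h3 : a + ((g * h) *ᵥ b + b) + (g * h) *ᵥ b = a + b + ((g * h) *ᵥ b + (g * h) *ᵥ b) := by abel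
    rw [h3, U_add_self, add_zero]
  · intro h1
    have h2 : g *ᵥ a + a = g *ᵥ a + (a + b) + b := by
      have h3 : g *ᵥ a + (a + b) + b = g *ᵥ a + a + (b + b) := by abel
      rw [h3, U_add_self, add_zero]
    rw [h2, h1]
    have h3 : g *ᵥ a + (g *ᵥ a + (g * h) *ᵥ b) + b = g *ᵥ a + g *ᵥ a + ((g * h) *ᵥ b + b) := by abel
    rw [h3, U_add_self, zero_add]

theorem finrank_prS2 (hg : IsSp g) (hh : IsSp h) : Module.finrank F (prS2 g h) =
    n + Module.finrank F (fixv g ⊓ fixv (g * h) : Submodule F (Fin n → F)) := by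
  have h1 := LinearMap.finrank_range_add_finrank_ker ((sb g).coprod (sb (g * h)))
  have h2 : ann (Sy.e : (Fin n → F) →ₗ[F] (Fin n → F) →ₗ[F] F)
      (LinearMap.range ((sb g).coprod (sb (g * h)))) = fixv g ⊓ fixv (g * h) := by
    rw [← ann_sb hg, ← ann_sb (isSp_mul hg hh), LinearMap.range_coprod]
    ext y
    rw [Submodule.mem_inf, mem_ann, mem_ann, mem_ann]
    constructor
    · exact fun h3 => ⟨fun z hz => h3 z (Submodule.mem_sup_left hz),
        fun z hz => h3 z (Submodule.mem_sup_right hz)⟩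
    · rintro ⟨h3, h4⟩ z hz
      obtain ⟨z₁, h5, z₂, h6, rfl⟩ := Submodule.mem_sup.1 hz
      rw [map_add, h3 _ h5, h4 _ h6, add_zero]
  have h3 := finrank_ann (b := (Sy.e : (Fin n → F) →ₗ[F] (Fin n → F) →ₗ[F] F)) e_symm
    (N := LinearMap.range ((sb g).coprod (sb (g * h)))) (by rw [ker_e]; exact bot_le)
  rw [h2, ker_e, finrank_bot, Module.finrank_fin_fun] at h3
  rw [Module.finrank_prod, Module.finrank_fin_fun] at h1
  have h4 : Module.finrank F (prS2 g h) = Module.finrank F (LinearMap.ker ((sb g).coprod (sb (g * h)))) :=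
    rfl
  omega

/-- the form on the space of pairs -/
noncomputable def ph (g h : Matrix (Fin n) (Fin n) F) : prS2 g h →ₗ[F] prS2 g h →ₗ[F] F :=
  LinearMap.mk₂ F (fun x y => ee x.1.1 (h *ᵥ y.1.2 + y.1.2))
    (fun x x' y => ee_add_left _ _ _)
    (fun c x y => ee_smul_left _ _ _)
    (fun x y y' => by
      show ee x.1.1 (h *ᵥ (y.1.2 + y'.1.2) + (y.1.2 + y'.1.2)) = _
      rw [← ee_add_right]
      congr 1
      rw [mulVec_add]
      abel)
    (fun c x y => by
      show ee x.1.1 (h *ᵥ (c • y.1.2) + (c • y.1.2)) = _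
      rw [mulVec_smul, ← smul_add, ee_smul_right]
      rfl)

theorem ph_apply (x y : prS2 g h) : ph g h x y = ee x.1.1 (h *ᵥ y.1.2 + y.1.2) := rfl

theorem ph_symm (hg : IsSp g) (hh : IsSp h) (x y : prS2 g h) : ph g h x y = ph g h y x := by
  obtain ⟨⟨a, b⟩, hx⟩ := x
  obtain ⟨⟨a', b'⟩, hy⟩ := y
  rw [ph_apply, ph_apply]
  show ee a (h *ᵥ b' + b') = ee a' (h *ᵥ b + b)
  have h1 : ee (a + b) (a' + b') = ee (a + h *ᵥ b) (a' + h *ᵥ b') := by
    rw [mem_prS2'.1 hx, mem_prS2'.1 hy, ee_mulVec hg]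
  simp only [ee_add_left, ee_add_right, ee_mulVec hh] at h1 ⊢
  rw [ee_comm a' (h *ᵥ b), ee_comm a' b]
  linear_combination (norm := (ring_nf; reduce_mod_char!)) h1

theorem mem_ker_ph (hg : IsSp g) (hh : IsSp h) {x : prS2 g h} :
    x ∈ LinearMap.ker (ph g h) ↔ ∃ c ∈ fixv h, x.1.1 + c ∈ fixv g ∧ x.1.2 + c ∈ fixv (g * h) := by
  obtain ⟨⟨a, b⟩, hx⟩ := x
  rw [LinearMap.mem_ker]
  constructor
  · intro h0
    -- `h b + b` is orthogonal to all `a'`
    let e : (Fin n → F) →ₗ[F] (Fin n → F) →ₗ[F] F := Sy.e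
    let M : Submodule F (Fin n → F) := (fixv (g * h)).map (sb h)
    have h1 : h *ᵥ b + b ∈ M := by
      have h2 := ann_ann (b := e) e_symm (N := M) (by rw [ker_e]; exact bot_le)
      rw [← h2]
      intro a' ha'
      -- `a'` is the first component of an element of `prS2`
      obtain ⟨b', hb'⟩ := range_sb (isSp_mul hg hh) (y := g *ᵥ a' + a') fun m hm => by
        have h3 : ee a' (h *ᵥ m + m) = 0 := ha' _ ⟨m, hm, rfl⟩
        have h4 : g *ᵥ (h *ᵥ m) = m := by
          rw [mulVec_mulVec]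
          exact hm
        rw [ee_add_left]
        nth_rewrite 1 [← h4]
        rw [ee_mulVec hg, ← ee_add_right]
        exact h3
      have h5 : (a', b') ∈ prS2 g h := mem_prS2.2 hb'.symm
      have h6 := LinearMap.congr_fun h0 ⟨(a', b'), h5⟩
      rw [ph_symm hg hh, ph_apply] at h6
      show ee (h *ᵥ b + b) a' = 0
      rw [ee_comm]
      exact h6
    obtain ⟨m, hm, hmb⟩ := h1
    have hmb' : h *ᵥ m + m = h *ᵥ b + b := hmb
    have hm' : g *ᵥ (h *ᵥ m) = m := by
      rw [mulVec_mulVec]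
      exact hm
    refine ⟨b + m, ?_, ?_, ?_⟩
    · rw [mem_fixv, mulVec_add]
      have h2 := U_cancel hmb'
      rw [h2]
      have h3 : h *ᵥ b + (m + (h *ᵥ b + b)) = h *ᵥ b + h *ᵥ b + (b + m) := by abel
      rw [h3, U_add_self, zero_add]
    · rw [mem_fixv]
      have h2 := mem_prS2'.1 hx
      have h3 : g *ᵥ (a + (b + m)) = g *ᵥ (a + h *ᵥ b) + g *ᵥ (h *ᵥ m) := by
        rw [← mulVec_add]
        congr 1
        have h4 := U_cancel hmb'
        rw [h4]
        have h5 : a + h *ᵥ b + (m + (h *ᵥ b + b)) = a + (b + m) + (h *ᵥ b + h *ᵥ b) := by abel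
        rw [h5, U_add_self, add_zero]
      rw [h3, ← h2, hm', add_assoc]
    · show b + (b + m) ∈ fixv (g * h)
      rw [← add_assoc, U_add_self, zero_add]
      exact hm
  · rintro ⟨c, hc, h1, h2⟩
    refine LinearMap.ext fun y => ?_
    obtain ⟨⟨a', b'⟩, hy⟩ := y
    rw [ph_symm hg hh, ph_apply, LinearMap.zero_apply]
    show ee a' (h *ᵥ b + b) = 0
    change a + c ∈ fixv g at h1
    change b + c ∈ fixv (g * h) at h2
    -- `m = b + c` is fixed by `g h`
    have h3 : h *ᵥ b + b = h *ᵥ (b + c) + (b + c) := by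
      rw [mulVec_add, mem_fixv.1 hc]
      have h4 : h *ᵥ b + c + (b + c) = h *ᵥ b + b + (c + c) := by abel
      rw [h4, U_add_self, add_zero]
    have h4 : g *ᵥ (h *ᵥ (b + c)) = b + c := by
      rw [mulVec_mulVec]
      exact h2
    have h5 := mem_prS2.1 hy
    rw [h3, ee_add_right, ← ee_mulVec hg, h4, ← ee_add_left, h5, ee_add_left]
    nth_rewrite 1 [← mem_fixv.1 h2]
    rw [ee_mulVec (isSp_mul hg hh), add_self]

/-- the sum map -/
def th (g h : Matrix (Fin n) (Fin n) F) :
    (fixv g × fixv (g * h) × fixv h) →ₗ[F] ((Fin n → F) × (Fin n → F)) where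
  toFun := fun x => (x.1.1 + x.2.2.1, x.2.1.1 + x.2.2.1)
  map_add' x y := by
    refine Prod.ext ?_ ?_
    · show x.1.1 + y.1.1 + (x.2.2.1 + y.2.2.1) = x.1.1 + x.2.2.1 + (y.1.1 + y.2.2.1)
      abel
    · show x.2.1.1 + y.2.1.1 + (x.2.2.1 + y.2.2.1) = x.2.1.1 + x.2.2.1 + (y.2.1.1 + y.2.2.1)
      abel
  map_smul' c x := by
    refine Prod.ext ?_ ?_
    · show c • x.1.1 + c • x.2.2.1 = c • (x.1.1 + x.2.2.1)
      rw [smul_add]
    · show c • x.2.1.1 + c • x.2.2.1 = c • (x.2.1.1 + x.2.2.1)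
      rw [smul_add]

theorem finrank_ker_ph (hg : IsSp g) (hh : IsSp h) : Module.finrank F (LinearMap.ker (ph g h)) +
    Module.finrank F (fixv g ⊓ fixv (g * h) : Submodule F (Fin n → F)) =
      Module.finrank F (fixv g) + Module.finrank F (fixv (g * h)) + Module.finrank F (fixv h) := by
  have h1 := LinearMap.finrank_range_add_finrank_ker (th g h)
  rw [Module.finrank_prod, Module.finrank_prod] at h1
  have h2 : LinearMap.range (th g h) = (LinearMap.ker (ph g h)).map (prS2 g h).subtype := by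
    ext ⟨a, b⟩
    rw [LinearMap.mem_range, Submodule.mem_map]
    constructor
    · rintro ⟨⟨⟨x, hx⟩, ⟨y, hy⟩, ⟨c, hc⟩⟩, h3⟩
      have h4 : x + c = a := congrArg Prod.fst h3
      have h5 : y + c = b := congrArg Prod.snd h3
      have hg1 : g *ᵥ x = x := hx
      have hg2 : (g * h) *ᵥ y = y := hy
      have hg3 : h *ᵥ c = c := hc
      have h6 : (a, b) ∈ prS2 g h := by
        rw [mem_prS2, ← h4, ← h5, mulVec_add, mulVec_add, hg1, hg2, ← mulVec_mulVec, hg3]
        have h7 : x + g *ᵥ c + (x + c) = x + x + (g *ᵥ c + c) := by abel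
        have h8 : y + g *ᵥ c + (y + c) = y + y + (g *ᵥ c + c) := by abel
        rw [h7, h8, U_add_self, U_add_self]
      refine ⟨⟨(a, b), h6⟩, (mem_ker_ph hg hh).2 ⟨c, hc, ?_, ?_⟩, rfl⟩
      · show a + c ∈ fixv g
        rw [← h4, add_assoc, U_add_self, add_zero]
        exact hx
      · show b + c ∈ fixv (g * h)
        rw [← h5, add_assoc, U_add_self, add_zero]
        exact hy
    · rintro ⟨⟨⟨a', b'⟩, hx⟩, h3, h4⟩
      obtain ⟨c, hc, h5, h6⟩ := (mem_ker_ph hg hh).1 h3
      have h7 : a' = a := congrArg Prod.fst h4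
      have h8 : b' = b := congrArg Prod.snd h4
      subst h7 h8
      refine ⟨⟨⟨a' + c, h5⟩, ⟨b' + c, h6⟩, ⟨c, hc⟩⟩, ?_⟩
      refine Prod.ext ?_ ?_
      · show a' + c + c = a'
        rw [add_assoc, U_add_self, add_zero]
      · show b' + c + c = b'
        rw [add_assoc, U_add_self, add_zero]
  have h3 : Module.finrank F (LinearMap.range (th g h)) = Module.finrank F (LinearMap.ker (ph g h)) := by
    rw [h2]
    exact (Submodule.equivMapOfInjective _ (prS2 g h).injective_subtype _).finrank_eq.symm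
  let q : (fixv g ⊓ fixv (g * h) : Submodule F (Fin n → F)) →ₗ[F]
      (fixv g × fixv (g * h) × fixv h) :=
    { toFun := fun x => (⟨x.1, x.2.1⟩, ⟨x.1, x.2.2⟩, ⟨x.1, by
        have h4 : g *ᵥ (h *ᵥ x.1) = g *ᵥ x.1 := by
          rw [mulVec_mulVec, mem_fixv.1 x.2.2, mem_fixv.1 x.2.1]
        have h5 : g *ᵥ (h *ᵥ x.1 + x.1) = 0 := by rw [mulVec_add, h4, U_add_self]
        have h6 := U_cancel (sp_inj hg h5)
        rwa [add_zero] at h6⟩)
      map_add' := fun _ _ => rfl
      map_smul' := fun _ _ => rfl }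
  have hq : Function.Injective q := by
    intro x y hxy
    exact Subtype.ext (congrArg (fun w : (fixv g × fixv (g * h) × fixv h) => w.1.1) hxy)
  have h4 : LinearMap.range q = LinearMap.ker (th g h) := by
    ext ⟨⟨x, hx⟩, ⟨y, hy⟩, ⟨c, hc⟩⟩
    rw [LinearMap.mem_range, LinearMap.mem_ker]
    constructor
    · rintro ⟨⟨z, hz⟩, h5⟩
      have e1 : z = x := congrArg (fun w : (fixv g × fixv (g * h) × fixv h) => w.1.1) h5
      have e2 : z = y := congrArg (fun w : (fixv g × fixv (g * h) × fixv h) => w.2.1.1) h5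
      have e3 : z = c := congrArg (fun w : (fixv g × fixv (g * h) × fixv h) => w.2.2.1) h5
      refine Prod.ext ?_ ?_
      · show x + c = 0
        rw [← e1, ← e3, U_add_self]
      · show y + c = 0
        rw [← e2, ← e3, U_add_self]
    · intro h5
      have e1 : x + c = 0 := congrArg Prod.fst h5
      have e2 : y + c = 0 := congrArg Prod.snd h5
      have e3 := U_cancel e1
      have e4 := U_cancel e2
      rw [add_zero] at e3 e4
      subst e3
      subst e4
      exact ⟨⟨_, hx, hy⟩, rfl⟩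
  have h5 : Module.finrank F (LinearMap.ker (th g h)) =
      Module.finrank F (fixv g ⊓ fixv (g * h) : Submodule F (Fin n → F)) := by
    rw [← h4, LinearMap.finrank_range_of_inj hq]
  omega

/-- three fixed spaces -/
theorem fix_three (hg : IsSp g) (hh : IsSp h) {v w u : Fin n → F} (hv : kk g = g *ᵥ v + v)
    (hw : kk h = h *ᵥ w + w) (hu : kk (g * h) = (g * h) *ᵥ u + u) :
    (Module.finrank F (fixv g) : F) + Module.finrank F (fixv (g * h)) + Module.finrank F (fixv h) =
      ee (v + w) (h *ᵥ (w + u) + (w + u)) := by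
  have hk : (v + w, w + u) ∈ prS2 g h := by
    rw [mem_prS2']
    have h1 := kk_mul hg hh
    rw [hv, hw, hu] at h1
    have h2 := U_cancel h1
    have h3 : v + w + (w + u) = v + u + (w + w) := by abel
    rw [h3, U_add_self, add_zero, mulVec_add, mulVec_add, mulVec_mulVec]
    rw [mulVec_add, mulVec_mulVec] at h2
    rw [mulVec_add (g * h), h2]
    have h4 : g *ᵥ v + g *ᵥ w + ((g * h) *ᵥ w +
        (u + (g *ᵥ v + v + ((g * h) *ᵥ w + g *ᵥ w)))) = v + u + (g *ᵥ v + g *ᵥ v) +
        (g *ᵥ w + g *ᵥ w) + ((g * h) *ᵥ w + (g * h) *ᵥ w) := by abel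
    rw [h4, U_add_self, U_add_self, U_add_self, add_zero, add_zero, add_zero]
  have h1 := sym_rank (ph g h) (ph_symm hg hh) ⟨(v + w, w + u), hk⟩ (fun x => by
    obtain ⟨⟨a, b⟩, hx⟩ := x
    rw [ph_apply, ph_apply]
    show ee a (h *ᵥ b + b) = ee (v + w) (h *ᵥ b + b) ^ 2
    have h2 := mem_prS2'.1 hx
    have h3 := qq_mulVec hg (a + h *ᵥ b)
    have h4 := qq_mulVec hh b
    have h5 : ee (kk g) (g *ᵥ (a + h *ᵥ b)) = ee v (h *ᵥ b + b) := by
      have h6 : ee (kk g) (g *ᵥ (a + h *ᵥ b)) = ee v (a + h *ᵥ b) + ee v (a + b) := by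
        rw [hv, ee_add_left, ee_mulVec hg, ← h2]
      rw [h6]
      simp only [ee_add_right]
      linear_combination (norm := (ring_nf; reduce_mod_char!))
    have h6 : ee (kk h) (h *ᵥ b) = ee w (h *ᵥ b + b) := by
      rw [hw, ee_add_left, ee_mulVec hh, ee_add_right, add_comm]
    rw [h5, ← h2, qq_add, qq_add] at h3
    rw [h6] at h4
    rw [ee_add_left, sq_add, ← h3, ← h4, ee_add_right]
    linear_combination (norm := (ring_nf; reduce_mod_char!)))
  have h2 := finrank_prS2 hg hh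
  have h3 := finrank_ker_ph hg hh
  rw [h2] at h1
  have h4 := congrArg (Nat.cast : ℕ → F) h3
  push_cast at h1 h4
  rw [ph_apply, n_cast F n] at h1
  change _ = _ + ee (v + w) (h *ᵥ (w + u) + (w + u)) at h1
  linear_combination (norm := (ring_nf; reduce_mod_char!)) h1 - h4

theorem mm_mul (hg : IsSp g) (hh : IsSp h) :
    mm (g * h) = mm g + mm h + ee (kk g) (g *ᵥ kk h) := by
  have hgh := isSp_mul hg hh
  have hv := kk_of_fix (vv_spec hg)
  have hw := kk_of_fix (vv_spec hh)
  have hu := kk_of_fix (vv_spec hgh)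
  have h1 := fix_three hg hh hv hw hu
  have h2 := kk_mul hg hh
  unfold mm
  generalize vv g = v at *
  generalize vv h = w at *
  generalize vv (g * h) = u at *
  rw [hv, hw, hu] at h2
  rw [hv, hw]
  -- the relation
  have h3 : v + u = g *ᵥ (v + h *ᵥ w + w + h *ᵥ u) := by
    have h4 := U_cancel h2
    rw [mulVec_add, mulVec_add, mulVec_add, mulVec_mulVec, mulVec_mulVec, h4, mulVec_add,
      mulVec_mulVec]
    have h5 : g *ᵥ v + (g * h) *ᵥ w + g *ᵥ w + (u + (g *ᵥ v + v + ((g * h) *ᵥ w + g *ᵥ w))) =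
        v + u + (g *ᵥ v + g *ᵥ v) + (g *ᵥ w + g *ᵥ w) + ((g * h) *ᵥ w + (g * h) *ᵥ w) := by abel
    rw [h5, U_add_self, U_add_self, U_add_self, add_zero, add_zero, add_zero]
  have h4 : ee (v + u) (g *ᵥ (h *ᵥ u)) = ee (v + h *ᵥ w + w + h *ᵥ u) (h *ᵥ u) := by
    rw [h3, ee_mulVec hg]
  have h5 : ee v (g *ᵥ (h *ᵥ w + w)) = ee v ((g * h) *ᵥ u + u + (g *ᵥ v + v)) := by
    congr 1
    rw [h2]
    have h6 : g *ᵥ v + v + g *ᵥ (h *ᵥ w + w) + (g *ᵥ v + v) =
      g *ᵥ (h *ᵥ w + w) + ((g *ᵥ v + v) + (g *ᵥ v + v)) := by abel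
    rw [h6, U_add_self, add_zero]
  rw [ee_add_left, ee_mulVec hg, h5]
  rw [mulVec_mulVec] at h4
  simp only [ee_add_left, ee_add_right, ee_self, ee_mulVec hh, mulVec_add] at h1 h4 ⊢
  linear_combination (norm := (ring_nf; reduce_mod_char!)) h1 + h4

end Pool.Agent.Work.MP_787500_nt.KT
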