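import Mathlib
import Pool.Agent.Work.MP_787500_nt.KT.Alg
import Pool.Agent.Work.MP_787500_nt.KS.Coch

/-!
The Kramer step: identities between cochains.
-/

set_option autoImplicit false
set_option linter.unusedSectionVars false

namespace Pool.Agent.Work.MP_787500_nt.KT

open Matrix
open Pool.Agent.Work.MP_787500_nt.KS (smul_F dF1 dF2 leib_chi)

variable {F : Type*} [Field F] [CharP F 2] [PerfectRing F 2] [Algebra (ZMod 2) F]
  {n : ℕ} [Sy F n] {G : Type*} [Group G]

/-- `y` is a cocycle -/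
def IsCo (A : G → Matrix (Fin n) (Fin n) F) (y : G → Fin n → F) : Prop :=
  ∀ g h, y (g * h) = y g + A g *ᵥ y h

/-- the coboundary of `χ ∪ y` is `a`: the pair `(a, a + y)` is a cocycle with values in the induced
module -/
def IsLift (A : G → Matrix (Fin n) (Fin n) F) (χ : G → ZMod 2) (a y : G → Fin n → F) : Prop :=
  ∀ g h, a (g * h) = a g + A g *ᵥ a h + χ g • (A g *ᵥ y h)

variable {A : G →* Matrix (Fin n) (Fin n) F} {χ : G → ZMod 2} {x y z a p q v : G → Fin n → F}

theorem smul_U (c : ZMod 2) (x : Fin n → F) : c • x = (algebraMap (ZMod 2) F c) • x := by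
  rw [algebraMap_smul]

/-- the coboundary of `Q ∘ y` -/
theorem qq_coc (hA : ∀ g, IsSp (A g)) (hy : IsCo A y) (g h : G) :
    dF1 (fun g => qq (y g)) g h =
      ee (y g) (A g *ᵥ y h) + ee (kk (A g)) (A g *ᵥ y h) ^ 2 := by
  have h1 := qq_mulVec (hA g) (y h)
  unfold dF1
  simp only [hy g h, qq_add]
  linear_combination (norm := (ring_nf; reduce_mod_char!)) h1

/-- the coboundary of `m` -/
theorem mm_coc (hA : ∀ g, IsSp (A g)) (g h : G) :
    dF1 (fun g => mm (A g)) g h = ee (kk (A g)) (A g *ᵥ kk (A h)) := by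
  unfold dF1
  simp only [map_mul, mm_mul (hA g) (hA h)]
  linear_combination (norm := (ring_nf; reduce_mod_char!))

/-- `k` is a cocycle -/
theorem kk_coc (hA : ∀ g, IsSp (A g)) : IsCo A (fun g => kk (A g)) := by
  intro g h
  simp only [map_mul, kk_mul (hA g) (hA h)]

/-- the coboundary of `e (y, z)` -/
theorem ee_coc (hA : ∀ g, IsSp (A g)) (hy : IsCo A y) (hz : IsCo A z) (g h : G) :
    dF1 (fun g => ee (y g) (z g)) g h = ee (y g) (A g *ᵥ z h) + ee (z g) (A g *ᵥ y h) := by
  unfold dF1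
  simp only [hy g h, hz g h, ee_add_left, ee_add_right, ee_mulVec (hA g),
    ee_comm (A g *ᵥ y h) (z g)]
  linear_combination (norm := (ring_nf; reduce_mod_char!))

/-- the coboundary of `a ∪ z`, where the coboundary of `a` is `χ ∪ y` -/
theorem leib_lift (hA : ∀ g, IsSp (A g)) (ha : IsLift A χ a y) (hz : IsCo A z) (g h k : G) :
    dF2 (fun g h => ee (a g) (A g *ᵥ z h)) g h k = χ g • ee (y h) (A h *ᵥ z k) := by
  unfold dF2
  simp only [ha g h, hz h k, ee_add_left, ee_add_right, mulVec_add, smul_U, smul_F, ee_smul_left,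
    map_mul, ← mulVec_mulVec, ee_mulVec (hA g)]
  linear_combination (norm := (ring_nf; reduce_mod_char!))

/-- local lift of a coboundary -/
theorem lift_cob (hA : ∀ g, IsSp (A g)) (hχ : ∀ g h, χ (g * h) = χ g + χ h) {p : Fin n → F}
    (hy : ∀ g, y g = A g *ᵥ p + p) : IsLift A χ (fun g => χ g • (A g *ᵥ p)) y := by
  intro g h
  simp only [hχ, hy h, map_mul, mulVec_add, smul_add, add_smul, ← mulVec_mulVec, mulVec_smul]
  ext i
  simp only [Pi.add_apply, Pi.smul_apply, smul_F, smul_U, mulVec_smul]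
  linear_combination (norm := (ring_nf; reduce_mod_char!))

theorem cup_lift_cob (hA : ∀ g, IsSp (A g)) {p : Fin n → F} (g h : G) :
    ee (χ g • (A g *ᵥ p)) (A g *ᵥ z h) = χ g • ee p (z h) := by
  rw [smul_U, smul_F, ee_smul_left, ee_mulVec (hA g)]

/-- local identity, symmetry -/
theorem loc_symm {g : Matrix (Fin n) (Fin n) F} (hg : IsSp g) (p q : Fin n → F) :
    ee p (g *ᵥ q + q) + ee q (g *ᵥ p + p) + ee (g *ᵥ p + p) (g *ᵥ q + q) = 0 := by
  simp only [ee_add_left, ee_add_right, ee_mulVec hg, ee_comm q p, ee_comm q (g *ᵥ p)]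
  linear_combination (norm := (ring_nf; reduce_mod_char!))

/-- local identity, diagonal -/
theorem loc_diag {g : Matrix (Fin n) (Fin n) F} (hg : IsSp g) {v : Fin n → F}
    (hv : kk g = g *ᵥ v + v) (p : Fin n → F) :
    ee p (g *ᵥ p + p) + ee v (g *ᵥ p + p) ^ 2 + qq (g *ᵥ p + p) = 0 := by
  have h1 := qq_mulVec hg p
  have h2 : ee (kk g) (g *ᵥ p) = ee v p + ee v (g *ᵥ p) := by
    rw [hv, ee_add_left, ee_mulVec hg]
  rw [h2] at h1
  rw [qq_add, ee_add_right, ee_self, add_zero, ee_add_right, ee_comm (g *ᵥ p) p]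
  linear_combination (norm := (ring_nf; reduce_mod_char!)) h1

/-- the secondary character -/
theorem loc_tau {g : Matrix (Fin n) (Fin n) F} {v : Fin n → F}
    (hv : kk g = g *ᵥ v + v) : ee v (kk g) = ee v (g *ᵥ v) := by
  rw [hv, ee_add_right, ee_self, add_zero]

/-- the correction class is a coboundary on a group with cyclic image -/
theorem kk_cob_cyclic (hA : ∀ g, IsSp (A g)) (g₀ : G)
    (hc : ∀ g, ∃ m : ℕ, A g = A g₀ ^ m) : ∃ v : Fin n → F, ∀ g, kk (A g) = A g *ᵥ v + v := by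
  obtain ⟨v, hv⟩ := kk_fix (hA g₀)
  refine ⟨v, fun g => ?_⟩
  obtain ⟨m, hn⟩ := hc g
  rw [hn]
  have hd : ∀ n : ℕ, IsSp (A g₀ ^ n) := isSp_pow (hA g₀)
  clear hn
  induction m with
  | zero =>
    rw [pow_zero, kk_one, one_mulVec]
    ext i
    exact (add_self (v i)).symm
  | succ m ih =>
    rw [pow_succ, kk_mul (hd m) (hA g₀), ih, kk_of_fix hv, mulVec_add, ← mulVec_mulVec]
    ext i
    simp only [Pi.add_apply]
    linear_combination (norm := (ring_nf; reduce_mod_char!))

end Pool.Agent.Work.MP_787500_nt.KT
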