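import Mathlib
import Pool.Agent.Work.MP_787500_nt.KR.T04b
import Pool.Agent.Work.MP_787500_nt.KS.Defs
import Pool.Agent.Work.MP_787500_nt.KT.Coch

/-!
The Kramer step: definitions (fixed, do not change).

`G` is the global group over the smaller field, `ε` the quadratic character, `A` a representation of `G`
with values in the symplectic group of `F ^ n`, `F` a finite field of characteristic 2. The places `i` with `sp i` are split
(`ε` is trivial on `D i`), with local condition `X i`, a subspace equal to its annihilator; at the other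
places the image of `A` is cyclic.
-/

set_option autoImplicit false
set_option linter.unusedSectionVars false

namespace Pool.Agent.Work.MP_787500_nt.KT

open Matrix
open Pool.Agent.Work.MP_787500_nt.GP (A0 hf hf_add hf_zero hf_two hf_neg smul_hf eq_hf hf_inj IsAct d0 d1
  d2 tw cup11 cup21 cup12 cup01 cup02)
open Pool.Agent.Work.MP_787500_nt.KR
open Pool.Agent.Work.MP_787500_nt.KS (hfT hfT_apply)

variable {F : Type*} [Field F] [Finite F] [CharP F 2] [Algebra (ZMod 2) F] {n : ℕ} [Sy F n]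

section defs

/-- the action by matrices -/
def act {G : Type*} (A : G → Matrix (Fin n) (Fin n) F) : G → (Fin n → F) → (Fin n → F) :=
  fun g u => A g *ᵥ u

/-- the pairing of the module with itself -/
noncomputable def BU : (Fin n → F) →+ (Fin n → F) →+ A0 :=
  AddMonoidHom.mk' (fun x => AddMonoidHom.mk' (fun y => hfT (ee x y))
      (fun y z => by rw [ee_add_right, map_add]))
    (fun x y => by
      refine DFunLike.ext _ _ fun z => ?_
      show hfT (ee (x + y) z) = hfT (ee x z) + hfT (ee y z)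
      rw [ee_add_left, map_add])

theorem BU_apply (x y : Fin n → F) : BU x y = hfT (ee x y) := rfl

/-- smooth cocycles -/
def cocS {G : Type*} [Group G] (S : FSys G) (A : G → Matrix (Fin n) (Fin n) F) :
    Submodule F (G → Fin n → F) where
  carrier := {x | Z1 S (act A) x}
  add_mem' := by
    rintro x y ⟨⟨W, hW, h1⟩, h2⟩ ⟨⟨W', hW', h1'⟩, h2'⟩
    refine ⟨⟨W ⊓ W', S.inf hW hW', fun g w hw => ?_⟩, fun a b => ?_⟩
    · rw [Pi.add_apply, Pi.add_apply, h1 g w hw.1, h1' g w hw.2]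
    · rw [Pi.add_apply, Pi.add_apply, Pi.add_apply, h2 a b, h2' a b]
      show x a + A a *ᵥ x b + (y a + A a *ᵥ y b) = x a + y a + A a *ᵥ (x b + y b)
      rw [mulVec_add]
      abel
  zero_mem' := by
    obtain ⟨W, hW⟩ := S.ex
    refine ⟨⟨W, hW, fun _ _ _ => rfl⟩, fun a b => ?_⟩
    show (0 : Fin n → F) = 0 + A a *ᵥ 0
    rw [mulVec_zero, add_zero]
  smul_mem' := by
    rintro c x ⟨⟨W, hW, h1⟩, h2⟩
    refine ⟨⟨W, hW, fun g w hw => ?_⟩, fun a b => ?_⟩
    · rw [Pi.smul_apply, Pi.smul_apply, h1 g w hw]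
    · rw [Pi.smul_apply, Pi.smul_apply, Pi.smul_apply, h2 a b]
      show c • (x a + A a *ᵥ x b) = c • x a + A a *ᵥ (c • x b)
      rw [smul_add, mulVec_smul]

theorem mem_cocS {G : Type*} [Group G] {S : FSys G} {A : G → Matrix (Fin n) (Fin n) F}
    {x : G → Fin n → F} : x ∈ cocS S A ↔ Z1 S (act A) x := Iff.rfl

/-- coboundaries -/
def cobS {G : Type*} (A : G → Matrix (Fin n) (Fin n) F) : Submodule F (G → Fin n → F) where
  carrier := {x | ∃ m : Fin n → F, ∀ g, x g = A g *ᵥ m + m}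
  add_mem' := by
    rintro x y ⟨m, hm⟩ ⟨n, hn⟩
    refine ⟨m + n, fun g => ?_⟩
    rw [Pi.add_apply, hm, hn, mulVec_add]
    abel
  zero_mem' := ⟨0, fun g => by rw [mulVec_zero, add_zero]; rfl⟩
  smul_mem' := by
    rintro c x ⟨m, hm⟩
    refine ⟨c • m, fun g => ?_⟩
    rw [Pi.smul_apply, hm, mulVec_smul, smul_add]

theorem mem_cobS {G : Type*} {A : G → Matrix (Fin n) (Fin n) F} {x : G → Fin n → F} :
    x ∈ cobS A ↔ ∃ m : Fin n → F, ∀ g, x g = A g *ᵥ m + m := Iff.rfl

end defs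

section spaces

variable {G : Type*} [Group G] (S : FSys G) {I : Type*} {D : I → Type*}
  [∀ i, Group (D i)] (j : ∀ i, D i →* G) (A : G →* Matrix (Fin n) (Fin n) F) (ε : G → ZMod 2)
  (sp : I → Prop) (X : ∀ i, Submodule F (D i → Fin n → F))

/-- the cocycles that satisfy the local conditions at the split places -/
def Rel : Submodule F (G → Fin n → F) where
  carrier := {y | Z1 S (act A) y ∧ ∀ i, sp i → (fun d => y (j i d)) ∈ X i}
  add_mem' := fun h h' =>
    ⟨(cocS S (A : G → Matrix (Fin n) (Fin n) F)).add_mem h.1 h'.1,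
      fun i hi => (X i).add_mem (h.2 i hi) (h'.2 i hi)⟩
  zero_mem' := ⟨(cocS S (A : G → Matrix (Fin n) (Fin n) F)).zero_mem, fun i _ => (X i).zero_mem⟩
  smul_mem' := fun c _ h => ⟨(cocS S (A : G → Matrix (Fin n) (Fin n) F)).smul_mem c h.1,
    fun i hi => (X i).smul_mem c (h.2 i hi)⟩

/-- the cocycles that are moreover coboundaries at the other places -/
def Str : Submodule F (G → Fin n → F) where
  carrier := {y | y ∈ Rel S j A sp X ∧ ∀ i, ¬ sp i → ∃ p : Fin n → F, ∀ d, y (j i d) =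
    A (j i d) *ᵥ p + p}
  add_mem' := by
    rintro x y ⟨h, h1⟩ ⟨h', h1'⟩
    refine ⟨(Rel S j A sp X).add_mem h h', fun i hi => ?_⟩
    exact (cobS fun d => A (j i d)).add_mem (h1 i hi) (h1' i hi)
  zero_mem' := ⟨(Rel S j A sp X).zero_mem, fun i _ => (cobS fun d => A (j i d)).zero_mem⟩
  smul_mem' := fun c _ h => ⟨(Rel S j A sp X).smul_mem c h.1,
    fun i hi => (cobS fun d => A (j i d)).smul_mem c (h.2 i hi)⟩

/-- the Selmer space over the quadratic extension: cocycles `(a, a + y)` with values in the induced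
module -/
def Sel : Submodule F ((G → Fin n → F) × (G → Fin n → F)) where
  carrier := {p | p.2 ∈ Str S j A sp X ∧ Sm1 S p.1 ∧
    (∀ g h, p.1 (g * h) = p.1 g + A g *ᵥ p.1 h + ε g • (A g *ᵥ p.2 h)) ∧
    ∀ i, sp i → (fun d => p.1 (j i d)) ∈ X i}
  add_mem' := by
    rintro ⟨a, y⟩ ⟨a', y'⟩ ⟨h1, ⟨W, hW, h2⟩, h3, h4⟩ ⟨h1', ⟨W', hW', h2'⟩, h3', h4'⟩
    dsimp only at h1 h2 h3 h4 h1' h2' h3' h4'
    refine ⟨(Str S j A sp X).add_mem h1 h1', ⟨W ⊓ W', S.inf hW hW', fun g w hw => ?_⟩,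
      fun g h => ?_, fun i hi => (X i).add_mem (h4 i hi) (h4' i hi)⟩
    · show a (g * w) + a' (g * w) = a g + a' g
      rw [h2 g w hw.1, h2' g w hw.2]
    · show a (g * h) + a' (g * h) = a g + a' g + A g *ᵥ (a h + a' h) +
        ε g • (A g *ᵥ (y h + y' h))
      rw [h3, h3', mulVec_add, mulVec_add, smul_add]
      abel
  zero_mem' := by
    obtain ⟨W, hW⟩ := S.ex
    refine ⟨(Str S j A sp X).zero_mem, ⟨W, hW, fun _ _ _ => rfl⟩, fun g h => ?_,
      fun i _ => (X i).zero_mem⟩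
    show (0 : Fin n → F) = 0 + A g *ᵥ 0 + ε g • (A g *ᵥ 0)
    rw [mulVec_zero, smul_zero, add_zero, add_zero]
  smul_mem' := by
    rintro c ⟨a, y⟩ ⟨h1, ⟨W, hW, h2⟩, h3, h4⟩
    dsimp only at h1 h2 h3 h4
    refine ⟨(Str S j A sp X).smul_mem c h1, ⟨W, hW, fun g w hw => ?_⟩, fun g h => ?_,
      fun i hi => (X i).smul_mem c (h4 i hi)⟩
    · show c • a (g * w) = c • a g
      rw [h2 g w hw]
    · show c • a (g * h) = c • a g + A g *ᵥ (c • a h) + ε g • (A g *ᵥ (c • y h))
      rw [h3, mulVec_smul, mulVec_smul, smul_add, smul_add, smul_comm c (ε g)]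

end spaces

section hyp

variable {G : Type*} [Group G] (S : FSys G) {I : Type*} [Fintype I] {D : I → Type*}
  [∀ i, Group (D i)] (SD : ∀ i, FSys (D i)) (j : ∀ i, D i →* G) (χ : G → ℤ_[2])
  (inv : ∀ i, (D i → D i → A0) → A0) (tr : ((G → G → G → A0) × (∀ i, D i → D i → A0)) →+ A0)
  (A : G →* Matrix (Fin n) (Fin n) F) (ε : G → ZMod 2)
  (sp : I → Prop) (X : ∀ i, Submodule F (D i → Fin n → F)) (t : I → ℕ)

/-- the hypotheses of the Kramer step -/
structure KH : Prop where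
  glob : GlobH S SD j χ inv
  istr : IsTr S SD j χ inv tr
  pp : PP S SD j tr (act A) (act A) BU
  ld : ∀ i, LDual (SD i) (inv i) (act fun d => A (j i d)) (act fun d => A (j i d)) BU
  fin : Finite {x : G → Fin n → F // Z1 S (act A) x}
  det : ∀ g, IsSp (A g)
  sm : Smooth S (act A)
  eadd : ∀ g h, ε (g * h) = ε g + ε h
  esm : Sm1 S ε
  esp : ∀ i, sp i → ∀ d, ε (j i d) = 0
  lag : ∀ i, sp i → ∀ x, x ∈ X i ↔ Z1 (SD i) (act fun d => A (j i d)) x ∧
    ∀ y ∈ X i, inv i (cup11 (act fun d => A (j i d)) BU x y) = 0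
  cyc : ∀ i, ¬ sp i → ∃ g₀ : D i, ∀ d, ∃ m : ℕ, A (j i d) = A (j i g₀) ^ m
  tau : ∀ i, ¬ sp i →
    inv i (fun d d' => hf (ε (j i d) * (Module.finrank F (fixv (A (j i d'))) : ZMod 2))) =
      hf (t i : ZMod 2)

end hyp

end Pool.Agent.Work.MP_787500_nt.KT
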