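import Mathlib
import Pool.Agent.Work.MP_787500_nt.KT.Basic
import Pool.Agent.Work.MP_787500_nt.KS.Main

/-!
The Kramer step: functionals on the global cocycles that vanish on a subspace given by local conditions
are sums of local cup products with elements of the annihilators.
-/

set_option autoImplicit false
set_option linter.unusedSectionVars false

namespace Pool.Agent.Work.MP_787500_nt.KT

open Matrix
open Pool.Agent.Work.MP_787500_nt.GP (A0 hf hf_add hf_zero hf_two hf_neg smul_hf eq_hf hf_inj IsAct d0 d1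
  d2 tw cup11 cup21 cup12 cup01 cup02)
open Pool.Agent.Work.MP_787500_nt.KR
open Pool.Agent.Work.MP_787500_nt.KS (hfT hfT_apply hfT_sq hfT_two hfT_neg smul_hfT hfT_nondeg hfT_smul
  inv_zero zero_Z2 smul_F dF1 dF2 leib_chi rt rt_sq ext_factor ext_sum d2_hfT sm_eps sm1_two sm1_one
  zmod2_cases hfT_eps_sq hf_cup_Z2 exists_mul hfT_eq trace_trick sym_rank)

variable {F : Type*} [Field F] [Finite F] [CharP F 2] [Algebra (ZMod 2) F] {n : ℕ} [Sy F n]
  {G : Type*} [Group G] {S : FSys G} {I : Type*} [Fintype I] {D : I → Type*}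
  [∀ i, Group (D i)] {SD : ∀ i, FSys (D i)} {j : ∀ i, D i →* G} {χ : G → ℤ_[2]}
  {inv : ∀ i, (D i → D i → A0) → A0} {tr : ((G → G → G → A0) × (∀ i, D i → D i → A0)) →+ A0}
  {A : G →* Matrix (Fin n) (Fin n) F} {ε : G → ZMod 2}
  {sp : I → Prop} {X : ∀ i, Submodule F (D i → Fin n → F)} {t : I → ℕ}

/-- the restriction of the representation to a local group -/
def Ai (j : ∀ i, D i →* G) (A : G →* Matrix (Fin n) (Fin n) F) (i : I) :
    D i →* Matrix (Fin n) (Fin n) F := A.comp (j i)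

theorem Ai_apply (i : I) (d : D i) : Ai j A i d = A (j i d) := rfl

theorem KH.det_i (H : KH S SD j χ inv tr A ε sp X t) (i : I) (d : D i) : IsSp (Ai j A i d) :=
  H.det _

theorem KH.sm_i (H : KH S SD j χ inv tr A ε sp X t) (i : I) : Smooth (SD i) (act (Ai j A i)) :=
  H.sm.comp (H.glob.jsm i)

theorem KH.ld_i (H : KH S SD j χ inv tr A ε sp X t) (i : I) :
    LDual (SD i) (inv i) (act (Ai j A i)) (act (Ai j A i)) (BU : (Fin n → F) →+ (Fin n → F) →+ A0) :=
  H.ld i

theorem KH.res_Z1 (H : KH S SD j χ inv tr A ε sp X t) (i : I) {z : G → Fin n → F}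
    (hz : Z1 S (act A) z) : Z1 (SD i) (act (Ai j A i)) (fun d => z (j i d)) :=
  Z1.comp (H.glob.jsm i) hz

/-- restriction of cocycles -/
def resH (H : KH S SD j χ inv tr A ε sp X t) (i : I) :
    cocS S (A : G → Matrix (Fin n) (Fin n) F) →ₗ[F]
      cocS (SD i) (Ai j A i : D i → Matrix (Fin n) (Fin n) F) where
  toFun z := ⟨fun d => z.1 (j i d), H.res_Z1 i z.2⟩
  map_add' _ _ := rfl
  map_smul' _ _ := rfl

theorem exists_loc (H : KH S SD j χ inv tr A ε sp X t)
    (Y : ∀ i, Submodule F (D i → Fin n → F)) (hB : ∀ i, cobS (Ai j A i) ≤ Y i)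
    (φ : cocS S (A : G → Matrix (Fin n) (Fin n) F) →+ A0)
    (hφ : ∀ z : cocS S (A : G → Matrix (Fin n) (Fin n) F),
      (∀ i, (fun d => z.1 (j i d)) ∈ Y i) → φ z = 0) :
    ∃ s : ∀ i, D i → Fin n → F, (∀ i, Z1 (SD i) (act (Ai j A i)) (s i)) ∧
      (∀ i, ∀ y ∈ Y i, Z1 (SD i) (act (Ai j A i)) y →
        inv i (cup11 (act (Ai j A i)) BU (s i) y) = 0) ∧
      ∀ z : cocS S (A : G → Matrix (Fin n) (Fin n) F), φ z =
        ∑ i, inv i (cup11 (act (Ai j A i)) BU (s i) (fun d => z.1 (j i d))) := by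
  obtain ⟨ψ, h1, h2⟩ := ext_sum
    (Z := fun i => cocS (SD i) (Ai j A i : D i → Matrix (Fin n) (Fin n) F))
    (fun i => (resH H i).toAddMonoidHom)
    (fun i => ((Y i).toAddSubgroup.comap
      (cocS (SD i) (Ai j A i : D i → Matrix (Fin n) (Fin n) F)).subtype.toAddMonoidHom)) φ hφ
  have key : ∀ i, ∃ s : cocS (SD i) (Ai j A i : D i → Matrix (Fin n) (Fin n) F),
      ∀ z, ψ i z = inv i (cup11 (act (Ai j A i)) BU s.1 z.1) := by
    intro i
    refine local_rep (H.glob.loc i) (H.det_i i) (H.sm_i i) (H.ld_i i) (ψ i) ?_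
    rintro z ⟨m, hm⟩
    exact h1 i z (hB i ⟨m, hm⟩)
  choose s hs using key
  refine ⟨fun i => (s i).1, fun i => (s i).2, fun i y hy hy' => ?_, fun z => ?_⟩
  · rw [← hs i ⟨y, hy'⟩]
    exact h1 i ⟨y, hy'⟩ hy
  · rw [h2]
    refine Finset.sum_congr rfl fun i _ => ?_
    rw [hs]
    rfl

end Pool.Agent.Work.MP_787500_nt.KT
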