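import Mathlib
import Pool.Agent.Work.MP_787500_nt.KT.Ext

/-!
The Kramer step: the form on the strict Selmer space and its elementary properties.
-/

set_option autoImplicit false
set_option linter.unusedSectionVars false

namespace Pool.Agent.Work.MP_787500_nt.KT

open Matrix
open Pool.Agent.Work.MP_787500_nt.GP (A0 hf hf_add hf_zero hf_two hf_neg smul_hf eq_hf hf_inj IsAct d0 d1
  d2 tw cup11 cup21 cup12 cup01 cup02)
open Pool.Agent.Work.MP_787500_nt.KR
open Pool.Agent.Work.MP_787500_nt.KS (hfT hfT_apply hfT_sq hfT_two hfT_neg smul_hfT hfT_nondeg hfT_smul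
  inv_zero zero_Z2 smul_F dF1 dF2 leib_chi rt rt_sq ext_factor ext_sum d2_hfT sm_eps sm1_two sm1_one
  zmod2_cases hfT_eps_sq hf_cup_Z2 exists_mul hfT_eq trace_trick sym_rank)

variable {F : Type*} [Field F] [Finite F] [CharP F 2] [Algebra (ZMod 2) F] {n : ℕ} [Sy F n]
  {G : Type*} [Group G] {S : FSys G} {I : Type*} [Fintype I] {D : I → Type*}
  [∀ i, Group (D i)] {SD : ∀ i, FSys (D i)} {j : ∀ i, D i →* G} {χ : G → ℤ_[2]}
  {inv : ∀ i, (D i → D i → A0) → A0} {tr : ((G → G → G → A0) × (∀ i, D i → D i → A0)) →+ A0}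
  {A : G →* Matrix (Fin n) (Fin n) F} {ε : G → ZMod 2}
  {sp : I → Prop} {X : ∀ i, Submodule F (D i → Fin n → F)} {t : I → ℕ}

/-- evaluation of the trace on `F`-valued cochains -/
theorem tr_eval (H : KH S SD j χ inv tr A ε sp X t) {b : G → G → F} (hb : Sm2 S b)
    (c : ∀ i, D i → D i → F)
    (hc : ∀ i, Z2 (SD i) (tw fun d => χ (j i d)) (fun u v => hfT (c i u v + b (j i u) (j i v)))) :
    tr (fun g h k => hfT (dF2 b g h k), fun i u v => hfT (c i u v)) =
      ∑ i, inv i (fun u v => hfT (c i u v + b (j i u) (j i v))) := by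
  rw [← d2_hfT H.glob.char]
  have h1 : ∀ i, (fun u v => hfT (c i u v) - hfT (b (j i u) (j i v))) =
      fun u v => hfT (c i u v + b (j i u) (j i v)) := by
    intro i
    funext u v
    rw [map_add, sub_eq_add_neg, hfT_neg]
  have hb' : Sm2 S (fun g h => hfT (b g h)) := by
    obtain ⟨W, hW, h2⟩ := hb
    exact ⟨W, hW, fun g h w hw w' hw' => by
      beta_reduce
      rw [h2 g h w hw w' hw']⟩
  have h3 := H.istr (fun g h => hfT (b g h)) (fun i u v => hfT (c i u v)) hb' (fun i => by
    rw [h1 i]
    exact hc i)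
  rw [h3]
  exact Finset.sum_congr rfl fun i _ => by rw [h1 i]

theorem tr_zero (H : KH S SD j χ inv tr A ε sp X t) {b : G → G → F} (hb : Sm2 S b)
    (c : ∀ i, D i → D i → F) (hc : ∀ i u v, c i u v + b (j i u) (j i v) = 0) :
    tr (fun g h k => hfT (dF2 b g h k), fun i u v => hfT (c i u v)) = 0 := by
  have h1 : ∀ i, (fun u v => hfT (c i u v + b (j i u) (j i v))) = fun _ _ => (0 : A0) := by
    intro i
    funext u v
    rw [hc, map_zero]
  rw [tr_eval H hb c (fun i => by rw [h1 i]; exact zero_Z2)]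
  exact Finset.sum_eq_zero fun i _ => by rw [h1 i, inv_zero (H.glob.loc i)]

/-- `y` is the coboundary of `p i` at the places that do not split -/
def IsP (j : ∀ i, D i →* G) (A : G →* Matrix (Fin n) (Fin n) F) (sp : I → Prop)
    (p : I → Fin n → F) (y : G → Fin n → F) : Prop :=
  ∀ i, ¬ sp i → ∀ d, y (j i d) = A (j i d) *ᵥ p i + p i

open scoped Classical in
/-- the local cochains -/
noncomputable def cc (j : ∀ i, D i →* G) (ε : G → ZMod 2) (sp : I → Prop) (p : I → Fin n → F)
    (z : G → Fin n → F) : ∀ i, D i → D i → F :=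
  fun i d d' => if sp i then 0 else ε (j i d) • ee (p i) (z (j i d'))

/-- the global cochain -/
def ff (A : G →* Matrix (Fin n) (Fin n) F) (ε : G → ZMod 2) (y z : G → Fin n → F) :
    G → G → G → F := fun g h k => ε g • ee (y h) (A h *ᵥ z k)

/-- the form -/
noncomputable def TT (j : ∀ i, D i →* G)
    (tr : ((G → G → G → A0) × (∀ i, D i → D i → A0)) →+ A0) (A : G →* Matrix (Fin n) (Fin n) F)
    (ε : G → ZMod 2) (sp : I → Prop) (p : I → Fin n → F) (y z : G → Fin n → F) : A0 :=
  tr (fun g h k => hfT (ff A ε y z g h k), fun i u v => hfT (cc j ε sp p z i u v))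

theorem IsP.add {p p' : I → Fin n → F} {y y' : G → Fin n → F} (h : IsP j A sp p y)
    (h' : IsP j A sp p' y') : IsP j A sp (p + p') (y + y') := by
  intro i hi d
  rw [Pi.add_apply, Pi.add_apply, h i hi, h' i hi, mulVec_add]
  abel

theorem IsP.smul {p : I → Fin n → F} {y : G → Fin n → F} (h : IsP j A sp p y) (c : F) :
    IsP j A sp (c • p) (c • y) := by
  intro i hi d
  rw [Pi.smul_apply, Pi.smul_apply, h i hi, mulVec_smul, smul_add]

theorem TT_add_left (p p' : I → Fin n → F) (y y' z : G → Fin n → F) :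
    TT j tr A ε sp (p + p') (y + y') z = TT j tr A ε sp p y z + TT j tr A ε sp p' y' z := by
  unfold TT
  rw [← map_add]
  congr 1
  refine Prod.ext ?_ ?_
  · funext g h k
    show hfT (ε g • ee (y h + y' h) _) = hfT (ε g • ee (y h) _) + hfT (ε g • ee (y' h) _)
    rw [ee_add_left, smul_add, map_add]
  · funext i u v
    show hfT (cc j ε sp (p + p') z i u v) = hfT (cc j ε sp p z i u v) + hfT (cc j ε sp p' z i u v)
    rw [← map_add]
    congr 1
    unfold cc
    split_ifs
    · rw [add_zero]
    · rw [Pi.add_apply, ee_add_left, smul_add]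

theorem TT_add_right (p : I → Fin n → F) (y z z' : G → Fin n → F) :
    TT j tr A ε sp p y (z + z') = TT j tr A ε sp p y z + TT j tr A ε sp p y z' := by
  unfold TT
  rw [← map_add]
  congr 1
  refine Prod.ext ?_ ?_
  · funext g h k
    show hfT (ε g • ee (y h) (A h *ᵥ (z k + z' k))) = hfT (ε g • ee (y h) (A h *ᵥ z k)) +
      hfT (ε g • ee (y h) (A h *ᵥ z' k))
    rw [mulVec_add, ee_add_right, smul_add, map_add]
  · funext i u v
    show hfT (cc j ε sp p (z + z') i u v) = hfT (cc j ε sp p z i u v) + hfT (cc j ε sp p z' i u v)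
    rw [← map_add]
    congr 1
    unfold cc
    split_ifs
    · rw [add_zero]
    · rw [Pi.add_apply, ee_add_right, smul_add]

theorem TT_smul (c : F) (p : I → Fin n → F) (y z : G → Fin n → F) :
    TT j tr A ε sp (c • p) (c • y) z = TT j tr A ε sp p y (c • z) := by
  unfold TT
  congr 1
  refine Prod.ext ?_ ?_
  · funext g h k
    show hfT (ε g • ee (c • y h) (A h *ᵥ z k)) = hfT (ε g • ee (y h) (A h *ᵥ (c • z k)))
    rw [mulVec_smul, ee_smul_left, ee_smul_right]
  · funext i u v
    show hfT (cc j ε sp (c • p) z i u v) = hfT (cc j ε sp p (c • z) i u v)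
    congr 1
    unfold cc
    split_ifs
    · rfl
    · rw [Pi.smul_apply, Pi.smul_apply, ee_smul_left, ee_smul_right]

/-- independence of the choice of `p` -/
theorem TT_indep (hA : ∀ g, IsSp (A g)) {p p' q : I → Fin n → F} {y z : G → Fin n → F}
    (h : IsP j A sp p y) (h' : IsP j A sp p' y) (hz : IsP j A sp q z) :
    TT j tr A ε sp p y z = TT j tr A ε sp p' y z := by
  unfold TT
  congr 2
  funext i u v
  congr 1
  unfold cc
  split_ifs with hi
  · rfl
  · congr 1
    rw [hz i hi v]
    -- the difference is fixed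
    have h1 : A (j i v) *ᵥ (p i + p' i) = p i + p' i := by
      have h2 := h i hi v
      have h3 := h' i hi v
      rw [h2] at h3
      rw [mulVec_add]
      ext l
      have h4 := congrFun h3 l
      simp only [Pi.add_apply] at h4 ⊢
      linear_combination (norm := (ring_nf; reduce_mod_char!)) h4
    have h5 := ee_mulVec (hA (j i v)) (p i + p' i) (q i)
    rw [h1, ee_add_left, ee_add_left] at h5
    rw [ee_add_right, ee_add_right]
    linear_combination (norm := (ring_nf; reduce_mod_char!)) h5

/-- the form is symmetric -/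
theorem TT_symm (H : KH S SD j χ inv tr A ε sp X t) {p q : I → Fin n → F}
    {y z : G → Fin n → F} (hy : Z1 S (act A) y) (hz : Z1 S (act A) z) (hp : IsP j A sp p y)
    (hq : IsP j A sp q z) : TT j tr A ε sp p y z = TT j tr A ε sp q z y := by
  rw [← sub_eq_zero]
  have hneg : TT j tr A ε sp q z y + TT j tr A ε sp q z y = 0 := by
    unfold TT
    rw [← map_add, ← map_zero tr]
    congr 1
    refine Prod.ext ?_ ?_
    · funext g h k
      exact hfT_two _
    · funext i u v
      exact hfT_two _
  have h3 : -TT j tr A ε sp q z y = TT j tr A ε sp q z y :=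
    (eq_neg_of_add_eq_zero_left hneg).symm
  rw [sub_eq_add_neg, h3]
  unfold TT
  rw [← map_add]
  have hsm : Sm2 S (fun g h => ε g • ee (y h) (z h)) :=
    sm_eps H.esm (sm1_two hy.1 hz.1 ee)
  have h4 := tr_zero H hsm (fun i u v => cc j ε sp p z i u v + cc j ε sp q y i u v) (by
    intro i u v
    unfold cc
    split_ifs with hi
    · rw [H.esp i hi, zero_smul, add_zero, add_zero]
    · rw [← smul_add, ← smul_add]
      have h5 := loc_symm (H.det (j i v)) (p i) (q i)
      rw [← hq i hi v, ← hp i hi v] at h5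
      rw [h5, smul_zero])
  rw [← h4]
  congr 1
  refine Prod.ext ?_ ?_
  · funext g h k
    show hfT (ff A ε y z g h k) + hfT (ff A ε z y g h k) =
      hfT (dF2 (fun g h => ε g • ee (y h) (z h)) g h k)
    rw [← map_add, leib_chi H.eadd (fun h => ee (y h) (z h)), ee_coc H.det hy.2 hz.2, smul_add]
    rfl
  · funext i u v
    show hfT _ + hfT _ = hfT _
    rw [map_add]

end Pool.Agent.Work.MP_787500_nt.KT
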