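import Mathlib
import Pool.Agent.Work.MP_787500_nt.KT.Diag

/-!
The Kramer step: the radical of the form is the image of the Selmer space of the quadratic extension.
-/

set_option autoImplicit false
set_option linter.unusedSectionVars false

namespace Pool.Agent.Work.MP_787500_nt.KT

open Matrix
open Pool.Agent.Work.MP_787500_nt.GP (A0 hf hf_add hf_zero hf_two hf_neg smul_hf eq_hf hf_inj IsAct d0 d1
  d2 tw cup11 cup21 cup12 cup01 cup02)
open Pool.Agent.Work.MP_787500_nt.KR
open Pool.Agent.Work.MP_787500_nt.KS (hfT hfT_apply hfT_sq hfT_two hfT_neg smul_hfT hfT_nondeg hfT_smul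
  inv_zero zero_Z2 smul_F dF1 dF2 leib_chi rt rt_sq ext_factor ext_sum d2_hfT sm_eps sm1_two sm1_one
  zmod2_cases hfT_eps_sq hf_cup_Z2 exists_mul hfT_eq trace_trick sym_rank)

variable {F : Type*} [Field F] [Finite F] [CharP F 2] [Algebra (ZMod 2) F] {n : ℕ} [Sy F n]
  {G : Type*} [Group G] {S : FSys G} {I : Type*} [Fintype I] {D : I → Type*}
  [∀ i, Group (D i)] {SD : ∀ i, FSys (D i)} {j : ∀ i, D i →* G} {χ : G → ℤ_[2]}
  {inv : ∀ i, (D i → D i → A0) → A0} {tr : ((G → G → G → A0) × (∀ i, D i → D i → A0)) →+ A0}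
  {A : G →* Matrix (Fin n) (Fin n) F} {ε : G → ZMod 2}
  {sp : I → Prop} {X : ∀ i, Submodule F (D i → Fin n → F)} {t : I → ℕ}

theorem U_neg (u : Fin n → F) : -u = u := by
  rw [neg_eq_iff_add_eq_zero]
  exact U_add_self u

theorem U_sub (u v : Fin n → F) : u - v = u + v := by rw [sub_eq_add_neg, U_neg]

theorem X_le (H : KH S SD j χ inv tr A ε sp X t) {i : I} (hi : sp i) {x : D i → Fin n → F}
    (hx : x ∈ X i) : Z1 (SD i) (act (Ai j A i)) x := ((H.lag i hi x).1 hx).1

theorem X_perp (H : KH S SD j χ inv tr A ε sp X t) {i : I} (hi : sp i) {x y : D i → Fin n → F}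
    (hx : x ∈ X i) (hy : y ∈ X i) : inv i (cup11 (act (Ai j A i)) BU x y) = 0 :=
  ((H.lag i hi x).1 hx).2 y hy

theorem mem_X (H : KH S SD j χ inv tr A ε sp X t) {i : I} (hi : sp i) {x : D i → Fin n → F}
    (hx : Z1 (SD i) (act (Ai j A i)) x)
    (h : ∀ y ∈ X i, inv i (cup11 (act (Ai j A i)) BU x y) = 0) : x ∈ X i :=
  (H.lag i hi x).2 ⟨hx, h⟩

theorem cob_Z1 (H : KH S SD j χ inv tr A ε sp X t) (i : I) {x : D i → Fin n → F}
    (hx : x ∈ cobS (Ai j A i)) : Z1 (SD i) (act (Ai j A i)) x := by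
  obtain ⟨m, hm⟩ := hx
  have h := d0_Z1 (isAct_act (Ai j A i)) (H.sm_i i) m
  convert h using 1
  funext g
  rw [d0_act, hm]

theorem cob_le_X (H : KH S SD j χ inv tr A ε sp X t) {i : I} (hi : sp i) :
    cobS (Ai j A i) ≤ X i := fun _ hx =>
  mem_X H hi (cob_Z1 H i hx) fun _ hy =>
    inv_cob_left (H.glob.loc i) (H.det_i i) (H.sm_i i) hx (X_le H hi hy)

/-- the trace of a family of local cocycles -/
theorem tr_loc (H : KH S SD j χ inv tr A ε sp X t) {c : ∀ i, D i → D i → A0}
    (hc : ∀ i, Z2 (SD i) (tw fun d => χ (j i d)) (c i)) :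
    tr (0, c) = ∑ i, inv i (c i) := by
  have hsm : Sm2 S (fun _ _ : G => (0 : A0)) := by
    obtain ⟨W, hW⟩ := S.ex
    exact ⟨W, hW, fun _ _ _ _ _ _ => rfl⟩
  have h := H.istr (fun _ _ => 0) c hsm (fun i => by
    have e : (fun u v => c i u v - 0) = c i := by funext u v; rw [sub_zero]
    rw [e]
    exact hc i)
  have h1 : d2 (tw χ) (fun _ _ : G => (0 : A0)) = 0 := by
    funext a b c
    simp [d2, tw]
  rw [h1] at h
  rw [h]
  refine Finset.sum_congr rfl fun i _ => ?_
  have e : (fun u v => c i u v - 0) = c i := by funext u v; rw [sub_zero]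
  rw [e]

/-- the obstruction cocycle -/
theorem obst_Z2 (H : KH S SD j χ inv tr A ε sp X t) {y : G → Fin n → F}
    (hy : Z1 S (act A) y) : Z2 S (act A) (fun g h => ε g • (A g *ᵥ y h)) := by
  constructor
  · obtain ⟨W, hW, h1⟩ := H.esm
    obtain ⟨W', hW', h2⟩ := hy.1
    obtain ⟨W'', hW'', h3⟩ := smooth_A H.sm
    refine ⟨W ⊓ (W' ⊓ W''), S.inf hW (S.inf hW' hW''), fun g h w hw w' hw' => ?_⟩
    beta_reduce
    rw [h1 g w hw.1, h2 h w' hw'.2.1, map_mul, h3 w hw.2.2, mul_one]
  · intro a b c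
    show A a *ᵥ (ε b • (A b *ᵥ y c)) - ε (a * b) • (A (a * b) *ᵥ y c) +
      ε a • (A a *ᵥ y (b * c)) - ε a • (A a *ᵥ y b) = 0
    have h1 : y (b * c) = y b + A b *ᵥ y c := hy.2 b c
    rw [U_sub, U_sub, h1, H.eadd, map_mul, mulVec_smul, mulVec_add, ← mulVec_mulVec, add_smul,
      smul_add]
    have h2 := U_add_self (ε b • (A a *ᵥ (A b *ᵥ y c)))
    have h3 := U_add_self (ε a • (A a *ᵥ (A b *ᵥ y c)))
    have h4 := U_add_self (ε a • (A a *ᵥ y b))
    calc _ = (ε b • (A a *ᵥ (A b *ᵥ y c)) + ε b • (A a *ᵥ (A b *ᵥ y c))) +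
        (ε a • (A a *ᵥ (A b *ᵥ y c)) + ε a • (A a *ᵥ (A b *ᵥ y c))) +
        (ε a • (A a *ᵥ y b) + ε a • (A a *ᵥ y b)) := by abel
      _ = 0 := by rw [h2, h3, h4]; simp

open scoped Classical in
/-- an element of the left kernel of the form is in the image -/
theorem im_of_TT (H : KH S SD j χ inv tr A ε sp X t) {p : I → Fin n → F} {y : G → Fin n → F}
    (hy : y ∈ Str S j A sp X) (hp : IsP j A sp p y)
    (h : ∀ z ∈ Str S j A sp X, TT j tr A ε sp p y z = 0) :
    ∃ a, (a, y) ∈ Sel S j A ε sp X := by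
  have hyZ : Z1 S (act A) y := hy.1.1
  let Y : ∀ i, Submodule F (D i → Fin n → F) := fun i => if sp i then X i else cobS (Ai j A i)
  have hY1 : ∀ i, sp i → Y i = X i := fun i hi => if_pos hi
  have hY2 : ∀ i, ¬ sp i → Y i = cobS (Ai j A i) := fun i hi => if_neg hi
  have hB : ∀ i, cobS (Ai j A i) ≤ Y i := by
    intro i
    by_cases hi : sp i
    · rw [hY1 i hi]
      exact cob_le_X H hi
    · rw [hY2 i hi]
  let φ : cocS S (A : G → Matrix (Fin n) (Fin n) F) →+ A0 :=
    AddMonoidHom.mk' (fun z => TT j tr A ε sp p y z.1) (fun z z' => TT_add_right p y z.1 z'.1)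
  obtain ⟨s, hs1, hs2, hs3⟩ := exists_loc H Y hB φ (fun z hz => by
    refine h z.1 ⟨⟨z.2, fun i hi => ?_⟩, fun i hi => ?_⟩
    · have := hz i
      rwa [hY1 i hi] at this
    · have := hz i
      rw [hY2 i hi] at this
      exact this)
  -- the local cochains
  let g₀ : ∀ i, D i → Fin n → F := fun i d =>
    if sp i then 0 else ε (j i d) • (A (j i d) *ᵥ p i)
  have hg₀ : ∀ i, Sm1 (SD i) (g₀ i) := by
    intro i
    by_cases hi : sp i
    · obtain ⟨W, hW⟩ := (SD i).ex
      refine ⟨W, hW, fun g w hw => ?_⟩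
      show (if sp i then 0 else _) = (if sp i then 0 else _)
      rw [if_pos hi, if_pos hi]
    · obtain ⟨W, hW, h1⟩ := smooth_A (H.sm_i i)
      obtain ⟨W', hW', h2⟩ := H.esm.comp (H.glob.jsm i)
      refine ⟨W ⊓ W', (SD i).inf hW hW', fun g w hw => ?_⟩
      show (if sp i then 0 else _) = (if sp i then 0 else _)
      have h3 : ε (j i (g * w)) = ε (j i g) := h2 g w hw.2
      have h4 : A (j i w) = 1 := h1 w hw.1
      rw [if_neg hi, if_neg hi, h3, map_mul (j i), map_mul A, h4, mul_one]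
  have hd₀ : ∀ i a b, g₀ i a + A (j i a) *ᵥ g₀ i b - g₀ i (a * b) =
      ε (j i a) • (A (j i a) *ᵥ y (j i b)) := by
    intro i a b
    by_cases hi : sp i
    · have e : ∀ d, g₀ i d = 0 := fun d => if_pos hi
      rw [e, e, e, mulVec_zero, H.esp i hi, zero_smul, add_zero, sub_zero]
    · have e : ∀ d, g₀ i d = ε (j i d) • (A (j i d) *ᵥ p i) := fun d => if_neg hi
      have h1 := lift_cob (A := Ai j A i) (χ := fun d => ε (j i d)) (H.det_i i)
        (fun g h => by rw [map_mul, H.eadd]) (p := p i) (y := fun d => y (j i d)) (hp i hi) a b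
      rw [e, e, e, U_sub]
      have h2 : ε (j i (a * b)) • (A (j i (a * b)) *ᵥ p i) =
          ε (j i a) • (A (j i a) *ᵥ p i) + A (j i a) *ᵥ (ε (j i b) • (A (j i b) *ᵥ p i)) +
            ε (j i a) • (A (j i a) *ᵥ y (j i b)) := h1
      rw [h2, ← add_assoc, U_add_self, zero_add]
  have hpp := H.pp (fun g h => ε g • (A g *ᵥ y h)) (fun i d => g₀ i d - s i d) (obst_Z2 H hyZ)
    (fun i => sm1_two (hg₀ i) (hs1 i).1 (fun u v => u - v))
    (fun i a b => by
      show g₀ i a - s i a + A (j i a) *ᵥ (g₀ i b - s i b) - (g₀ i (a * b) - s i (a * b)) = _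
      have h1 : s i (a * b) = s i a + A (j i a) *ᵥ s i b := (hs1 i).2 a b
      rw [← hd₀ i a b, mulVec_sub, h1]
      abel)
    (fun x hx => by
      have h1 : (fun i => cup11 (act fun d => A (j i d)) BU (fun d => g₀ i d - s i d)
          (fun d => x (j i d))) = (fun i u v => hfT (cc j ε sp p x i u v)) -
          (fun i => cup11 (act (Ai j A i)) BU (s i) (fun d => x (j i d))) := by
        funext i u v
        show BU (g₀ i u - s i u) (A (j i u) *ᵥ x (j i v)) = hfT (cc j ε sp p x i u v) -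
          BU (s i u) (A (j i u) *ᵥ x (j i v))
        rw [map_sub, AddMonoidHom.sub_apply]
        congr 1
        rw [BU_apply]
        congr 1
        show ee (if sp i then 0 else ε (j i u) • (A (j i u) *ᵥ p i)) _ = cc j ε sp p x i u v
        unfold cc
        split_ifs with hi
        · rw [ee_zero_left]
        · rw [smul_U, smul_F, ee_smul_left, ee_mulVec (H.det _)]
      have h2 : cup21 (act A) BU (fun g h => ε g • (A g *ᵥ y h)) x =
          fun g h k => hfT (ff A ε y x g h k) := by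
        funext g h k
        show hfT (ee (ε g • (A g *ᵥ y h)) (A (g * h) *ᵥ x k)) =
          hfT (ε g • ee (y h) (A h *ᵥ x k))
        rw [map_mul, ← mulVec_mulVec, smul_U, smul_F, ee_smul_left, ee_mulVec (H.det _)]
      rw [h2]
      have h3 : ((fun g h k => hfT (ff A ε y x g h k)), fun i =>
          cup11 (act fun d => A (j i d)) BU (fun d => g₀ i d - s i d) (fun d => x (j i d))) =
          ((fun g h k => hfT (ff A ε y x g h k)), fun i u v => hfT (cc j ε sp p x i u v)) -
          ((0 : G → G → G → A0), fun i => cup11 (act (Ai j A i)) BU (s i)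
            (fun d => x (j i d))) := by
        rw [h1]
        refine Prod.ext ?_ rfl
        exact (sub_zero _).symm
      have h4 : tr ((0 : G → G → G → A0), fun i => cup11 (act (Ai j A i)) BU (s i)
          (fun d => x (j i d))) = TT j tr A ε sp p y x := by
        rw [tr_loc H (fun i => cup11_Z2 (pair_BU (H.glob.loc i).char (H.det_i i) (H.sm_i i))
          (hs1 i) (H.res_Z1 i hx))]
        exact (hs3 ⟨x, hx⟩).symm
      refine (congrArg tr h3).trans ?_
      rw [map_sub, h4]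
      exact sub_self _)
  obtain ⟨a, Yv, ha1, ha2, ha3⟩ := hpp
  refine ⟨a, hy, ha1, fun g h => ?_, fun i hi => ?_⟩
  · have h1 : ε g • (A g *ᵥ y h) = a g + A g *ᵥ a h - a (g * h) := congrFun (congrFun ha2 g) h
    show a (g * h) = a g + A g *ᵥ a h + ε g • (A g *ᵥ y h)
    rw [h1, U_sub, ← add_assoc, U_add_self, zero_add]
  · have h1 : ∀ d, a (j i d) = s i d + (A (j i d) *ᵥ Yv i + Yv i) := by
      intro d
      have h2 : g₀ i d - s i d = a (j i d) - d0 (act fun d => A (j i d)) (Yv i) d := ha3 i d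
      have h3 : g₀ i d = 0 := if_pos hi
      have h4 : d0 (act fun d => A (j i d)) (Yv i) d = A (j i d) *ᵥ Yv i + Yv i :=
        d0_act (fun d => A (j i d)) (Yv i) d
      rw [h3, h4, zero_sub, U_neg, U_sub] at h2
      rw [h2, add_assoc, U_add_self, add_zero]
    have h5 : (fun d => a (j i d)) = s i + fun d => A (j i d) *ᵥ Yv i + Yv i := funext h1
    show (fun d => a (j i d)) ∈ X i
    rw [h5]
    refine (X i).add_mem (mem_X H hi (hs1 i) fun y' hy' => ?_) (cob_le_X H hi ⟨Yv i, fun d => rfl⟩)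
    exact hs2 i y' (by rw [hY1 i hi]; exact hy') (X_le H hi hy')

/-- an element of the image is in the left kernel -/
theorem TT_of_im (H : KH S SD j χ inv tr A ε sp X t) {p : I → Fin n → F}
    {a y z : G → Fin n → F} (ha : (a, y) ∈ Sel S j A ε sp X) (hz : z ∈ Str S j A sp X)
    (hp : IsP j A sp p y) : TT j tr A ε sp p y z = 0 := by
  obtain ⟨hy, hsa, hlift, hX⟩ := ha
  dsimp only at hy hsa hlift hX
  have hzZ : Z1 S (act A) z := hz.1.1
  have hsm : Sm2 S (fun g h => ee (a g) (A g *ᵥ z h)) := by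
    obtain ⟨W, hW, h1⟩ := hsa
    obtain ⟨W', hW', h2⟩ := hzZ.1
    obtain ⟨W'', hW'', h3⟩ := smooth_A H.sm
    refine ⟨W ⊓ (W' ⊓ W''), S.inf hW (S.inf hW' hW''), fun g h w hw w' hw' => ?_⟩
    beta_reduce
    rw [h1 g w hw.1, h2 h w' hw'.2.1, map_mul, h3 w hw.2.2, mul_one]
  classical
  -- the local cocycles
  let tt : ∀ i, D i → Fin n → F := fun i d =>
    if sp i then a (j i d) else a (j i d) + ε (j i d) • (A (j i d) *ᵥ p i)
  have htt : ∀ i, Z1 (SD i) (act (Ai j A i)) (tt i) := by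
    intro i
    by_cases hi : sp i
    · have e : tt i = fun d => a (j i d) := by
        funext d
        exact if_pos hi
      rw [e]
      exact X_le H hi (hX i hi)
    · have e : tt i = fun d => a (j i d) + ε (j i d) • (A (j i d) *ᵥ p i) := by
        funext d
        exact if_neg hi
      rw [e]
      constructor
      · obtain ⟨W, hW, h1⟩ := smooth_A (H.sm_i i)
        obtain ⟨W', hW', h2⟩ := H.esm.comp (H.glob.jsm i)
        obtain ⟨W'', hW'', h3⟩ := hsa.comp (H.glob.jsm i)
        refine ⟨W ⊓ (W' ⊓ W''), (SD i).inf hW ((SD i).inf hW' hW''), fun g w hw => ?_⟩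
        have h3' : ε (j i (g * w)) = ε (j i g) := h2 g w hw.2.1
        have h4 : A (j i w) = 1 := h1 w hw.1
        have h5 : a (j i (g * w)) = a (j i g) := h3 g w hw.2.2
        beta_reduce
        rw [h5, h3', map_mul (j i), map_mul A, h4, mul_one]
      · intro u v
        have h1 := lift_cob (A := Ai j A i) (χ := fun d => ε (j i d)) (H.det_i i)
          (fun g h => by rw [map_mul, H.eadd]) (p := p i) (y := fun d => y (j i d)) (hp i hi) u v
        have h2 : ε (j i (u * v)) • (A (j i (u * v)) *ᵥ p i) =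
            ε (j i u) • (A (j i u) *ᵥ p i) + A (j i u) *ᵥ (ε (j i v) • (A (j i v) *ᵥ p i)) +
              ε (j i u) • (A (j i u) *ᵥ y (j i v)) := h1
        have h3 : a (j i (u * v)) = a (j i u) + A (j i u) *ᵥ a (j i v) +
            ε (j i u) • (A (j i u) *ᵥ y (j i v)) := by rw [map_mul, hlift]
        show a (j i (u * v)) + ε (j i (u * v)) • (A (j i (u * v)) *ᵥ p i) =
          a (j i u) + ε (j i u) • (A (j i u) *ᵥ p i) +
            A (j i u) *ᵥ (a (j i v) + ε (j i v) • (A (j i v) *ᵥ p i))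
        rw [h2, h3, mulVec_add]
        have h4 := U_add_self (ε (j i u) • (A (j i u) *ᵥ y (j i v)))
        calc _ = a (j i u) + ε (j i u) • (A (j i u) *ᵥ p i) +
            (A (j i u) *ᵥ a (j i v) + A (j i u) *ᵥ (ε (j i v) • (A (j i v) *ᵥ p i))) +
            (ε (j i u) • (A (j i u) *ᵥ y (j i v)) + ε (j i u) • (A (j i u) *ᵥ y (j i v))) := by
              abel
          _ = _ := by rw [h4, add_zero]
  have hloc : ∀ i, (fun u v => hfT (cc j ε sp p z i u v + ee (a (j i u)) (A (j i u) *ᵥ z (j i v)))) =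
      cup11 (act (Ai j A i)) BU (tt i) (fun d => z (j i d)) := by
    intro i
    funext u v
    show _ = hfT (ee (tt i u) (A (j i u) *ᵥ z (j i v)))
    congr 1
    unfold cc
    by_cases hi : sp i
    · have e : tt i u = a (j i u) := if_pos hi
      rw [if_pos hi, e, zero_add]
    · have e : tt i u = a (j i u) + ε (j i u) • (A (j i u) *ᵥ p i) := if_neg hi
      rw [if_neg hi, e, ee_add_left, smul_U, smul_F, ee_smul_left, ee_mulVec (H.det _), add_comm]
  have h1 := tr_eval H hsm (cc j ε sp p z) (fun i => by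
    rw [hloc i]
    exact cup11_Z2 (pair_BU (H.glob.loc i).char (H.det_i i) (H.sm_i i)) (htt i)
      (H.res_Z1 i hzZ))
  have h2 : TT j tr A ε sp p y z = tr (fun g h k => hfT (dF2 (fun g h => ee (a g) (A g *ᵥ z h))
      g h k), fun i u v => hfT (cc j ε sp p z i u v)) := by
    unfold TT
    congr 2
    funext g h k
    rw [leib_lift H.det hlift hzZ.2]
    rfl
  rw [h2, h1]
  refine Finset.sum_eq_zero fun i _ => ?_
  rw [hloc i]
  by_cases hi : sp i
  · have e : tt i = fun d => a (j i d) := by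
      funext d
      exact if_pos hi
    rw [e]
    exact X_perp H hi (hX i hi) (hz.1.2 i hi)
  · obtain ⟨q, hq⟩ := hz.2 i hi
    exact inv_cob_right (H.glob.loc i) (H.det_i i) (H.sm_i i) (htt i) ⟨q, hq⟩

end Pool.Agent.Work.MP_787500_nt.KT
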