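import Mathlib
import Pool.Agent.Work.MP_787500_nt.KT.Ker

/-!
The Kramer step: the relaxed Selmer space modulo the strict one has half the dimension of the local
cohomology at the places that do not split.
-/

set_option autoImplicit false
set_option linter.unusedSectionVars false

namespace Pool.Agent.Work.MP_787500_nt.KT

open Matrix
open Pool.Agent.Work.MP_787500_nt.GP (A0 hf hf_add hf_zero hf_two hf_neg smul_hf eq_hf hf_inj IsAct d0 d1
  d2 tw cup11 cup21 cup12 cup01 cup02 perpL card_perp)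
open Pool.Agent.Work.MP_787500_nt.KR
open Pool.Agent.Work.MP_787500_nt.KS (hfT hfT_apply hfT_sq hfT_two hfT_neg smul_hfT hfT_nondeg hfT_smul
  inv_zero zero_Z2 smul_F dF1 dF2 leib_chi rt rt_sq ext_factor ext_sum d2_hfT sm_eps sm1_two sm1_one
  zmod2_cases hfT_eps_sq hf_cup_Z2 exists_mul hfT_eq trace_trick sym_rank)

variable {F : Type*} [Field F] [Finite F] [CharP F 2] [Algebra (ZMod 2) F] {n : ℕ} [Sy F n]
  {G : Type*} [Group G] {S : FSys G} {I : Type*} [Fintype I] {D : I → Type*}
  [∀ i, Group (D i)] {SD : ∀ i, FSys (D i)} {j : ∀ i, D i →* G} {χ : G → ℤ_[2]}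
  {inv : ∀ i, (D i → D i → A0) → A0} {tr : ((G → G → G → A0) × (∀ i, D i → D i → A0)) →+ A0}
  {A : G →* Matrix (Fin n) (Fin n) F} {ε : G → ZMod 2}
  {sp : I → Prop} {X : ∀ i, Submodule F (D i → Fin n → F)} {t : I → ℕ}

/-- reciprocity for cup products -/
theorem recip_cup (H : KH S SD j χ inv tr A ε sp X t) {z z' : G → Fin n → F}
    (hz : Z1 S (act A) z) (hz' : Z1 S (act A) z') :
    ∑ i, inv i (cup11 (act (Ai j A i)) BU (fun d => z (j i d)) (fun d => z' (j i d))) = 0 := by
  have P : Pair S χ (act A) (act A) (BU : (Fin n → F) →+ (Fin n → F) →+ A0) :=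
    pair_BU H.glob.char H.det H.sm
  exact H.glob.recip _ (cup11_Z2 P hz hz')

/-- the local cocycles at the places that do not split -/
abbrev LocN (SD : ∀ i, FSys (D i)) (j : ∀ i, D i →* G) (A : G →* Matrix (Fin n) (Fin n) F)
    (sp : I → Prop) : Type _ :=
  ∀ i : {i // ¬ sp i}, cocS (SD i.1) (Ai j A i.1 : D i.1 → Matrix (Fin n) (Fin n) F)

/-- the local coboundaries -/
def CobN (SD : ∀ i, FSys (D i)) (j : ∀ i, D i →* G) (A : G →* Matrix (Fin n) (Fin n) F)
    (sp : I → Prop) : Submodule F (LocN SD j A sp) where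
  carrier := {x | ∀ i, (x i).1 ∈ cobS (Ai j A i.1)}
  add_mem' := fun h h' i => (cobS _).add_mem (h i) (h' i)
  zero_mem' := fun i => (cobS _).zero_mem
  smul_mem' := fun c _ h i => (cobS _).smul_mem c (h i)

/-- localization of the relaxed Selmer space -/
def locN (H : KH S SD j χ inv tr A ε sp X t) : Rel S j A sp X →ₗ[F] LocN SD j A sp where
  toFun z i := ⟨fun d => z.1 (j i.1 d), H.res_Z1 i.1 z.2.1⟩
  map_add' _ _ := rfl
  map_smul' _ _ := rfl

open scoped Classical in
/-- the sum of the local pairings -/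
noncomputable def betaN (H : KH S SD j χ inv tr A ε sp X t) :
    LocN SD j A sp →+ LocN SD j A sp →+ A0 :=
  AddMonoidHom.mk' (fun x => AddMonoidHom.mk' (fun y =>
      ∑ i : {i // ¬ sp i}, inv i.1 (cup11 (act (Ai j A i.1)) BU (x i).1 (y i).1))
      (fun y y' => by
        rw [← Finset.sum_add_distrib]
        refine Finset.sum_congr rfl fun i _ => ?_
        exact inv_add_right (H.glob.loc i.1) (H.det_i i.1) (H.sm_i i.1) (x i).2 (y i).2 (y' i).2))
    (fun x x' => by
      refine DFunLike.ext _ _ fun y => ?_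
      show (∑ i : {i // ¬ sp i}, inv i.1 (cup11 (act (Ai j A i.1)) BU ((x + x') i).1 (y i).1)) =
        (∑ i : {i // ¬ sp i}, inv i.1 (cup11 (act (Ai j A i.1)) BU (x i).1 (y i).1)) +
        ∑ i : {i // ¬ sp i}, inv i.1 (cup11 (act (Ai j A i.1)) BU (x' i).1 (y i).1)
      rw [← Finset.sum_add_distrib]
      refine Finset.sum_congr rfl fun i _ => ?_
      exact inv_add_left (H.glob.loc i.1) (H.det_i i.1) (H.sm_i i.1) (x i).2 (x' i).2 (y i).2)

open scoped Classical in
theorem betaN_apply (H : KH S SD j χ inv tr A ε sp X t) (x y : LocN SD j A sp) :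
    betaN H x y = ∑ i : {i // ¬ sp i}, inv i.1 (cup11 (act (Ai j A i.1)) BU (x i).1 (y i).1) := rfl

theorem betaN_symm (H : KH S SD j χ inv tr A ε sp X t) (x y : LocN SD j A sp) :
    betaN H x y = betaN H y x := by
  rw [betaN_apply, betaN_apply]
  exact Finset.sum_congr rfl fun i _ =>
    inv_symm (H.glob.loc i.1) (H.det_i i.1) (H.sm_i i.1) (x i).2 (y i).2

theorem betaN_cob (H : KH S SD j χ inv tr A ε sp X t) {x : LocN SD j A sp}
    (hx : x ∈ CobN SD j A sp) (y : LocN SD j A sp) : betaN H x y = 0 := by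
  rw [betaN_apply]
  exact Finset.sum_eq_zero fun i _ =>
    inv_cob_left (H.glob.loc i.1) (H.det_i i.1) (H.sm_i i.1) (hx i) (y i).2

theorem betaN_ker (H : KH S SD j χ inv tr A ε sp X t) {x : LocN SD j A sp}
    (hx : ∀ y, betaN H x y = 0) : x ∈ CobN SD j A sp := by
  classical
  intro i
  obtain ⟨m, hm⟩ := (H.ld_i i.1).one (x i).1 (x i).2 (fun y hy => by
    have h1 := hx (Pi.single i ⟨y, hy⟩)
    rw [betaN_apply, Finset.sum_eq_single i] at h1
    · rw [Pi.single_eq_same] at h1
      exact h1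
    · intro i' _ hne
      rw [Pi.single_eq_of_ne hne]
      exact inv_cob_right (H.glob.loc i'.1) (H.det_i i'.1) (H.sm_i i'.1) (x i').2
        ⟨0, fun g => by rw [mulVec_zero, add_zero]; rfl⟩
    · intro h
      exact absurd (Finset.mem_univ _) h)
  exact ⟨m, fun g => by rw [hm, d0_act]⟩

theorem relN_iso (H : KH S SD j χ inv tr A ε sp X t) (z z' : Rel S j A sp X) :
    betaN H (locN H z) (locN H z') = 0 := by
  classical
  have h1 := recip_cup H z.2.1 z'.2.1
  have h2 : ∑ i : {i // sp i}, inv i.1 (cup11 (act (Ai j A i.1)) BU (fun d => z.1 (j i.1 d))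
      (fun d => z'.1 (j i.1 d))) = 0 :=
    Finset.sum_eq_zero fun i _ => X_perp H i.2 (z.2.2 i.1 i.2) (z'.2.2 i.1 i.2)
  rw [← Fintype.sum_subtype_add_sum_subtype sp (fun i => inv i (cup11 (act (Ai j A i)) BU
    (fun d => z.1 (j i d)) (fun d => z'.1 (j i d)))), h2, zero_add] at h1
  rw [betaN_apply]
  exact h1

theorem relN_max (H : KH S SD j χ inv tr A ε sp X t) {s : LocN SD j A sp}
    (hs : ∀ z : Rel S j A sp X, betaN H s (locN H z) = 0) :
    ∃ z : Rel S j A sp X, s - locN H z ∈ CobN SD j A sp := by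
  classical
  let Y : ∀ i, Submodule F (D i → Fin n → F) := fun i => if sp i then X i else ⊤
  have hY1 : ∀ i, sp i → Y i = X i := fun i hi => if_pos hi
  have hY2 : ∀ i, ¬ sp i → Y i = ⊤ := fun i hi => if_neg hi
  have hB : ∀ i, cobS (Ai j A i) ≤ Y i := by
    intro i
    by_cases hi : sp i
    · rw [hY1 i hi]
      exact cob_le_X H hi
    · rw [hY2 i hi]
      exact le_top
  -- extend `s` by zero
  let s' : ∀ i, D i → Fin n → F := fun i => if hi : sp i then 0 else (s ⟨i, hi⟩).1
  have hs'1 : ∀ i, sp i → s' i = 0 := fun i hi => dif_pos hi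
  have hs'2 : ∀ i (hi : ¬ sp i), s' i = (s ⟨i, hi⟩).1 := fun i hi => dif_neg hi
  have hs'Z : ∀ i, Z1 (SD i) (act (Ai j A i)) (s' i) := by
    intro i
    by_cases hi : sp i
    · rw [hs'1 i hi]
      exact (cocS (SD i) (Ai j A i : D i → Matrix (Fin n) (Fin n) F)).zero_mem
    · rw [hs'2 i hi]
      exact (s ⟨i, hi⟩).2
  have hsum : ∀ z : G → Fin n → F, Z1 S (act A) z →
      ∑ i, inv i (cup11 (act (Ai j A i)) BU (s' i) (fun d => z (j i d))) =
      ∑ i : {i // ¬ sp i}, inv i.1 (cup11 (act (Ai j A i.1)) BU (s i).1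
        (fun d => z (j i.1 d))) := by
    intro z hz
    rw [← Fintype.sum_subtype_add_sum_subtype sp (fun i => inv i (cup11 (act (Ai j A i)) BU
      (s' i) (fun d => z (j i d))))]
    have h2 : ∑ i : {i // sp i}, inv i.1 (cup11 (act (Ai j A i.1)) BU (s' i.1)
        (fun d => z (j i.1 d))) = 0 :=
      Finset.sum_eq_zero fun i _ => by
        rw [hs'1 i.1 i.2]
        exact inv_cob_left (H.glob.loc i.1) (H.det_i i.1) (H.sm_i i.1)
          ⟨0, fun g => by rw [mulVec_zero, add_zero]; rfl⟩ (H.res_Z1 i.1 hz)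
    rw [h2, zero_add]
    exact Finset.sum_congr rfl fun i _ => by rw [hs'2 i.1 i.2]
  let φ : cocS S (A : G → Matrix (Fin n) (Fin n) F) →+ A0 :=
    AddMonoidHom.mk' (fun z => ∑ i, inv i (cup11 (act (Ai j A i)) BU (s' i)
      (fun d => z.1 (j i d)))) (fun z z' => by
        rw [← Finset.sum_add_distrib]
        exact Finset.sum_congr rfl fun i _ => inv_add_right (H.glob.loc i) (H.det_i i) (H.sm_i i)
          (hs'Z i) (H.res_Z1 i z.2) (H.res_Z1 i z'.2))
  obtain ⟨r, hr1, hr2, hr3⟩ := exists_loc H Y hB φ (fun z hz => by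
    show ∑ i, _ = _
    rw [hsum z.1 z.2]
    exact hs ⟨z.1, z.2, fun i hi => by
      have := hz i
      rwa [hY1 i hi] at this⟩)
  have hrc : ∀ i, ¬ sp i → r i ∈ cobS (Ai j A i) := by
    intro i hi
    obtain ⟨m, hm⟩ := (H.ld_i i).one (r i) (hr1 i) (fun y hy =>
      hr2 i y (by rw [hY2 i hi]; trivial) hy)
    exact ⟨m, fun g => by rw [hm, d0_act]⟩
  have hrX : ∀ i, sp i → r i ∈ X i := by
    intro i hi
    exact mem_X H hi (hr1 i) fun y hy => hr2 i y (by rw [hY1 i hi]; exact hy) (X_le H hi hy)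
  have hz0 : Z2 S (act A) (fun _ _ => (0 : Fin n → F)) := by
    obtain ⟨W, hW⟩ := S.ex
    refine ⟨⟨W, hW, fun _ _ _ _ _ _ => rfl⟩, fun a b c => ?_⟩
    show A a *ᵥ 0 - 0 + 0 - 0 = 0
    rw [mulVec_zero]
    simp
  have hpp := H.pp (fun _ _ => 0) (fun i d => r i d + s' i d) hz0
    (fun i => sm1_two (hr1 i).1 (hs'Z i).1 (fun u v => u + v))
    (fun i a b => by
      show r i a + s' i a + A (j i a) *ᵥ (r i b + s' i b) - (r i (a * b) + s' i (a * b)) = 0
      have h1 : r i (a * b) = r i a + A (j i a) *ᵥ r i b := (hr1 i).2 a b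
      have h2 : s' i (a * b) = s' i a + A (j i a) *ᵥ s' i b := (hs'Z i).2 a b
      rw [h1, h2, mulVec_add]
      abel)
    (fun x hx => by
      have h1 : cup21 (act A) BU (fun _ _ => (0 : Fin n → F)) x = 0 := by
        funext a b c
        show BU 0 _ = 0
        rw [map_zero]
        rfl
      have h2 : (cup21 (act A) BU (fun _ _ => (0 : Fin n → F)) x,
          fun i => cup11 (act fun d => A (j i d)) BU (fun d => r i d + s' i d)
          (fun d => x (j i d))) = ((0 : G → G → G → A0), fun i => cup11 (act (Ai j A i)) BU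
          (r i + s' i) (fun d => x (j i d))) := Prod.ext h1 rfl
      refine (congrArg tr h2).trans ?_
      rw [tr_loc H (fun i => cup11_Z2 (pair_BU (H.glob.loc i).char (H.det_i i) (H.sm_i i))
        ((cocS (SD i) (Ai j A i : D i → Matrix (Fin n) (Fin n) F)).add_mem (hr1 i) (hs'Z i))
        (H.res_Z1 i hx))]
      have h3 : ∀ i, inv i (cup11 (act (Ai j A i)) BU (r i + s' i) (fun d => x (j i d))) =
          inv i (cup11 (act (Ai j A i)) BU (r i) (fun d => x (j i d))) +
          inv i (cup11 (act (Ai j A i)) BU (s' i) (fun d => x (j i d))) := fun i =>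
        inv_add_left (H.glob.loc i) (H.det_i i) (H.sm_i i) (hr1 i) (hs'Z i) (H.res_Z1 i hx)
      rw [Finset.sum_congr rfl fun i _ => h3 i, Finset.sum_add_distrib, ← hr3 ⟨x, hx⟩]
      show φ ⟨x, hx⟩ + φ ⟨x, hx⟩ = 0
      rw [hr3 ⟨x, hx⟩, ← Finset.sum_add_distrib]
      refine Finset.sum_eq_zero fun i _ => ?_
      rw [← inv_add_left (H.glob.loc i) (H.det_i i) (H.sm_i i) (hr1 i) (hr1 i) (H.res_Z1 i hx)]
      refine inv_cob_left (H.glob.loc i) (H.det_i i) (H.sm_i i) ⟨0, fun g => ?_⟩ (H.res_Z1 i hx)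
      rw [mulVec_zero, add_zero]
      exact U_add_self _)
  obtain ⟨a, Yv, ha1, ha2, ha3⟩ := hpp
  have haZ : Z1 S (act A) a := by
    refine ⟨ha1, fun g h => ?_⟩
    have h1 : (0 : Fin n → F) = a g + act A g (a h) - a (g * h) := congrFun (congrFun ha2 g) h
    exact (sub_eq_zero.1 h1.symm).symm
  have h1 : ∀ i d, a (j i d) = r i d + s' i d + (A (j i d) *ᵥ Yv i + Yv i) := by
    intro i d
    have h2 : r i d + s' i d = a (j i d) - d0 (act fun d => A (j i d)) (Yv i) d := ha3 i d
    have h4 : d0 (act fun d => A (j i d)) (Yv i) d = A (j i d) *ᵥ Yv i + Yv i :=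
      d0_act (fun d => A (j i d)) (Yv i) d
    rw [h2, h4, U_sub, add_assoc, U_add_self, add_zero]
  refine ⟨⟨a, haZ, fun i hi => ?_⟩, fun i => ?_⟩
  · have h5 : (fun d => a (j i d)) = r i + fun d => A (j i d) *ᵥ Yv i + Yv i := by
      funext d
      rw [h1, hs'1 i hi]
      show r i d + 0 + _ = r i d + _
      rw [add_zero]
    rw [h5]
    exact (X i).add_mem (hrX i hi) (cob_le_X H hi ⟨Yv i, fun d => rfl⟩)
  · have h5 : (s i).1 - (fun d => a (j i.1 d)) = r i.1 + fun d => A (j i.1 d) *ᵥ Yv i.1 + Yv i.1 := by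
      funext d
      rw [Pi.sub_apply, h1, hs'2 i.1 i.2, U_sub]
      show (s i).1 d + (r i.1 d + (s i).1 d + _) = r i.1 d + _
      have h6 := U_add_self ((s i).1 d)
      calc _ = ((s i).1 d + (s i).1 d) + (r i.1 d + (A (j i.1 d) *ᵥ Yv i.1 + Yv i.1)) := by abel
        _ = _ := by rw [h6, zero_add]
    show (s i).1 - (fun d => a (j i.1 d)) ∈ cobS (Ai j A i.1)
    rw [h5]
    exact (cobS _).add_mem (hrc i.1 i.2) ⟨Yv i.1, fun d => rfl⟩

/-- finiteness -/
theorem KH.finRel (H : KH S SD j χ inv tr A ε sp X t) : Finite (Rel S j A sp X) := by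
  have := H.fin
  exact Finite.of_injective (fun z : Rel S j A sp X => (⟨z.1, z.2.1⟩ :
    {x : G → Fin n → F // Z1 S (act A) x})) (fun z z' h => Subtype.ext (by
      have h1 := congrArg Subtype.val h
      exact h1))

theorem KH.finStr (H : KH S SD j χ inv tr A ε sp X t) : Finite (Str S j A sp X) := by
  have := H.finRel
  exact Finite.of_injective (fun z : Str S j A sp X => (⟨z.1, z.2.1⟩ : Rel S j A sp X))
    (fun z z' h => Subtype.ext (by
      have h1 := congrArg Subtype.val h
      exact h1))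

theorem KH.finLoc (H : KH S SD j χ inv tr A ε sp X t) (i : I) :
    Finite (cocS (SD i) (Ai j A i : D i → Matrix (Fin n) (Fin n) F)) := (H.ld_i i).fin

/-- twice the dimension of the relaxed modulo the strict Selmer space -/
theorem rel_str (H : KH S SD j χ inv tr A ε sp X t) :
    2 * Module.finrank F (Rel S j A sp X) + Module.finrank F (CobN SD j A sp) =
      2 * Module.finrank F (Str S j A sp X) + Module.finrank F (LocN SD j A sp) := by
  classical
  have hf1 := H.finRel
  have hf2 := H.finStr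
  have hf3 := H.finLoc
  have hfL : Finite (LocN SD j A sp) := Pi.finite
  have hfd : FiniteDimensional F (LocN SD j A sp) := Module.Finite.of_finite
  have hfdR : FiniteDimensional F (Rel S j A sp X) := Module.Finite.of_finite
  have hfdS : FiniteDimensional F (Str S j A sp X) := Module.Finite.of_finite
  let C := CobN SD j A sp
  let Λ : Submodule F (LocN SD j A sp) := C ⊔ LinearMap.range (locN H)
  have hΛ : ∀ x, x ∈ Λ ↔ ∃ z, x - locN H z ∈ C := by
    intro x
    rw [Submodule.mem_sup]
    constructor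
    · rintro ⟨c, hc, _, ⟨z, rfl⟩, rfl⟩
      exact ⟨z, by rwa [add_sub_cancel_right]⟩
    · rintro ⟨z, hz⟩
      exact ⟨_, hz, _, ⟨z, rfl⟩, sub_add_cancel _ _⟩
  have hperp : perpL (betaN H) Λ.toAddSubgroup = Λ.toAddSubgroup := by
    ext s
    constructor
    · intro hs
      have h1 : ∀ z : Rel S j A sp X, betaN H s (locN H z) = 0 := by
        intro z
        rw [betaN_symm]
        exact hs (locN H z) ((hΛ _).2 ⟨z, by rw [sub_self]; exact C.zero_mem⟩)
      exact (hΛ s).2 (relN_max H h1)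
    · intro hs x hx
      obtain ⟨z, hz⟩ := (hΛ s).1 hs
      obtain ⟨z', hz'⟩ := (hΛ x).1 hx
      have h1 : betaN H x s = betaN H (x - locN H z') s + betaN H (locN H z') s := by
        rw [← AddMonoidHom.add_apply, ← map_add, sub_add_cancel]
      have h2 : betaN H (locN H z') s =
          betaN H (locN H z') (s - locN H z) + betaN H (locN H z') (locN H z) := by
        rw [← map_add, sub_add_cancel]
      rw [h1, betaN_cob H hz', zero_add, h2, betaN_symm, betaN_cob H hz, zero_add, relN_iso]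
  have hK : ∀ a, (∀ a', betaN H a a' = 0) → a ∈ Λ.toAddSubgroup := fun a ha =>
    (hΛ a).2 ⟨0, by rw [map_zero, sub_zero]; exact betaN_ker H ha⟩
  have hflip : (betaN H).flip = betaN H := by
    refine DFunLike.ext _ _ fun x => DFunLike.ext _ _ fun y => ?_
    rw [AddMonoidHom.flip_apply, betaN_symm]
  have htop : perpL (betaN H).flip ⊤ = C.toAddSubgroup := by
    rw [hflip]
    ext x
    constructor
    · intro hx
      refine betaN_ker H fun y => ?_
      rw [betaN_symm]
      exact hx y trivial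
    · intro hx y _
      rw [betaN_symm]
      exact betaN_cob H hx y
  have hcard := card_perp (betaN H) Λ.toAddSubgroup hK
  rw [hperp, htop] at hcard
  have hcF : Nat.card F ≠ 0 := Nat.card_pos.ne'
  have hc1 : 1 < Nat.card F := Finite.one_lt_card
  have hpow : ∀ N : Submodule F (LocN SD j A sp),
      Nat.card N.toAddSubgroup = Nat.card F ^ Module.finrank F N := fun N =>
    Module.natCard_eq_pow_finrank (K := F) (V := N)
  have hpow' : Nat.card (LocN SD j A sp) = Nat.card F ^ Module.finrank F (LocN SD j A sp) :=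
    Module.natCard_eq_pow_finrank
  rw [hpow Λ, hpow C, hpow', ← pow_add, ← pow_add] at hcard
  have h1 := Nat.pow_right_injective hc1 hcard
  -- dimension of `Λ`
  have h2 := Submodule.finrank_sup_add_finrank_inf_eq C (LinearMap.range (locN H))
  have h3 := LinearMap.finrank_range_add_finrank_ker (locN H)
  -- the restriction to the strict space
  let ι : Str S j A sp X →ₗ[F] Rel S j A sp X := Submodule.inclusion fun _ h => h.1
  have hι : Function.Injective ι := Submodule.inclusion_injective _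
  have h4 := LinearMap.finrank_range_add_finrank_ker ((locN H).comp ι)
  have h5 : LinearMap.range ((locN H).comp ι) = C ⊓ LinearMap.range (locN H) := by
    ext x
    constructor
    · rintro ⟨z, rfl⟩
      refine ⟨fun i => ?_, ⟨ι z, rfl⟩⟩
      obtain ⟨p, hp⟩ := z.2.2 i.1 i.2
      exact ⟨p, hp⟩
    · rintro ⟨hx, z, rfl⟩
      exact ⟨⟨z.1, z.2, fun i hi => hx ⟨i, hi⟩⟩, rfl⟩
  have h6 : Module.finrank F (LinearMap.ker ((locN H).comp ι)) =
      Module.finrank F (LinearMap.ker (locN H)) := by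
    have h7 : (LinearMap.ker ((locN H).comp ι)).map ι = LinearMap.ker (locN H) := by
      ext z
      rw [Submodule.mem_map]
      constructor
      · rintro ⟨w, hw, rfl⟩
        exact hw
      · intro hz
        rw [LinearMap.mem_ker] at hz
        refine ⟨⟨z.1, z.2, fun i hi => ?_⟩, ?_, rfl⟩
        · have h8 := congrFun hz ⟨i, hi⟩
          have h9 := congrArg Subtype.val h8
          refine ⟨0, fun d => ?_⟩
          rw [mulVec_zero, add_zero]
          exact congrFun h9 d
        · rw [LinearMap.mem_ker]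
          exact hz
    rw [← h7]
    exact (Submodule.equivMapOfInjective ι hι _).finrank_eq
  rw [h5, h6] at h4
  have h8 : Module.finrank F Λ = Module.finrank F (C ⊔ LinearMap.range (locN H) :
    Submodule F (LocN SD j A sp)) := rfl
  rw [h8] at h1
  show 2 * Module.finrank F (Rel S j A sp X) + Module.finrank F C =
      2 * Module.finrank F (Str S j A sp X) + Module.finrank F (LocN SD j A sp)
  generalize Module.finrank F (C ⊔ LinearMap.range (locN H) : Submodule F (LocN SD j A sp)) = n1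
    at *
  generalize Module.finrank F (C ⊓ LinearMap.range (locN H) : Submodule F (LocN SD j A sp)) = n2
    at *
  omega

end Pool.Agent.Work.MP_787500_nt.KT
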