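import Mathlib
import Pool.Agent.Work.MP_787500_nt.KT.RelC
import Pool.Agent.Work.MP_787500_nt.KS.Lin

/-!
The Kramer step: the parity of the dimension of the Selmer space of the quadratic extension.
-/

set_option autoImplicit false
set_option linter.unusedSectionVars false

namespace Pool.Agent.Work.MP_787500_nt.KT

open Matrix
open Pool.Agent.Work.MP_787500_nt.GP (A0 hf hf_add hf_zero hf_two hf_neg smul_hf eq_hf hf_inj IsAct d0 d1
  d2 tw cup11 cup21 cup12 cup01 cup02)
open Pool.Agent.Work.MP_787500_nt.KR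
open Pool.Agent.Work.MP_787500_nt.KS (hfT hfT_apply hfT_sq hfT_two hfT_neg smul_hfT hfT_nondeg hfT_smul
  inv_zero zero_Z2 smul_F dF1 dF2 leib_chi rt rt_sq ext_factor ext_sum d2_hfT sm_eps sm1_two sm1_one
  zmod2_cases hfT_eps_sq hf_cup_Z2 exists_mul hfT_eq trace_trick sym_rank)

variable {F : Type*} [Field F] [Finite F] [CharP F 2] [Algebra (ZMod 2) F] {n : ℕ} [Sy F n]

section main

variable {G : Type*} [Group G] {S : FSys G} {I : Type*} [Fintype I] {D : I → Type*}
  [∀ i, Group (D i)] {SD : ∀ i, FSys (D i)} {j : ∀ i, D i →* G} {χ : G → ℤ_[2]}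
  {inv : ∀ i, (D i → D i → A0) → A0} {tr : ((G → G → G → A0) × (∀ i, D i → D i → A0)) →+ A0}
  {A : G →* Matrix (Fin n) (Fin n) F} {ε : G → ZMod 2}
  {sp : I → Prop} {X : ∀ i, Submodule F (D i → Fin n → F)} {t : I → ℕ}

theorem exists_P (y : Str S j A sp X) : ∃ p : I → Fin n → F, IsP j A sp p y.1 := by
  have h : ∀ i, ∃ p : Fin n → F, ¬ sp i → ∀ d, y.1 (j i d) = A (j i d) *ᵥ p + p := by
    intro i
    by_cases hi : sp i
    · exact ⟨0, fun h => absurd hi h⟩
    · obtain ⟨p, hp⟩ := y.2.2 i hi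
      exact ⟨p, fun _ => hp⟩
  choose p hp using h
  exact ⟨p, hp⟩

open scoped Classical in
/-- the form with values in `F` -/
theorem exists_form (H : KH S SD j χ inv tr A ε sp X t) :
    ∃ b : Str S j A sp X →ₗ[F] Str S j A sp X →ₗ[F] F,
      (∀ y z, b y z = b z y) ∧ (∀ y, b y y = b ⟨kc A, kc_Str H⟩ y ^ 2) ∧
      b ⟨kc A, kc_Str H⟩ ⟨kc A, kc_Str H⟩ = ((∑ i, if sp i then 0 else t i : ℕ) : F) ∧
      ∀ y, y ∈ LinearMap.ker b ↔ ∃ a, (a, y.1) ∈ Sel S j A ε sp X := by
  let pp : Str S j A sp X → I → Fin n → F := fun y => Classical.choose (exists_P y)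
  have hpp : ∀ y, IsP j A sp (pp y) y.1 := fun y => Classical.choose_spec (exists_P y)
  have hind : ∀ (y : Str S j A sp X) (p : I → Fin n → F) (_ : IsP j A sp p y.1)
      (z : Str S j A sp X), TT j tr A ε sp (pp y) y.1 z.1 = TT j tr A ε sp p y.1 z.1 :=
    fun y p hp z => TT_indep H.det (hpp y) hp (hpp z)
  let τ : Str S j A sp X →+ Str S j A sp X →+ A0 :=
    AddMonoidHom.mk' (fun y => AddMonoidHom.mk' (fun z => TT j tr A ε sp (pp y) y.1 z.1)
        (fun z z' => TT_add_right (pp y) y.1 z.1 z'.1))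
      (fun y y' => by
        refine DFunLike.ext _ _ fun z => ?_
        show TT j tr A ε sp (pp (y + y')) (y + y').1 z.1 =
          TT j tr A ε sp (pp y) y.1 z.1 + TT j tr A ε sp (pp y') y'.1 z.1
        rw [hind (y + y') (pp y + pp y') ((hpp y).add (hpp y')) z]
        exact TT_add_left (pp y) (pp y') y.1 y'.1 z.1)
  have hτ : ∀ (y z : Str S j A sp X) (p : I → Fin n → F), IsP j A sp p y.1 →
      τ y z = TT j tr A ε sp p y.1 z.1 := fun y z p hp => hind y p hp z
  have hbal : ∀ (c : F) y z, τ (c • y) z = τ y (c • z) := by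
    intro c y z
    rw [hτ (c • y) z (c • pp y) ((hpp y).smul c)]
    exact TT_smul c (pp y) y.1 z.1
  have hsymm : ∀ y z, τ y z = τ z y := fun y z =>
    TT_symm H y.2.1.1 z.2.1.1 (hpp y) (hpp z)
  obtain ⟨b, hb⟩ := trace_trick τ hbal
  obtain ⟨v, hv⟩ := exists_kv H
  have hone : ∀ y z, τ y z = hfT (b y z) := by
    intro y z
    have := hb 1 y z
    rwa [one_smul, one_mul] at this
  refine ⟨b, fun y z => ?_, fun y => ?_, ?_, fun y => ?_⟩
  · refine hfT_eq fun a => ?_
    rw [← hb, ← hb, hbal, hsymm]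
  · refine hfT_eq fun a => ?_
    have h1 : hfT (a * b ⟨kc A, kc_Str H⟩ y ^ 2) = hfT (rt a * b ⟨kc A, kc_Str H⟩ y) := by
      have h2 : a * b ⟨kc A, kc_Str H⟩ y ^ 2 = (rt a * b ⟨kc A, kc_Str H⟩ y) ^ 2 := by
        rw [mul_pow, rt_sq]
      rw [h2, hfT_sq]
    rw [h1, ← hb, ← hb, hτ (a • y) y (a • pp y) ((hpp y).smul a),
      hτ (rt a • ⟨kc A, kc_Str H⟩) y (rt a • v) (IsP.smul (y := kc A) hv (rt a))]
    exact TT_diag H y.2.1.1 (hpp y) hv a
  · refine hfT_eq fun a => ?_
    rw [← hb, hτ (a • ⟨kc A, kc_Str H⟩) _ (a • v) (IsP.smul (y := kc A) hv a)]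
    have h1 := TT_kk H hv a
    refine h1.trans ?_
    rw [hfT_apply]
    congr 1
    have h2 : ((∑ i, if sp i then 0 else t i : ℕ) : F) =
        algebraMap (ZMod 2) F ((∑ i, if sp i then 0 else t i : ℕ) : ZMod 2) := by
      rw [map_natCast]
    rw [h2, mul_comm a, ← Algebra.smul_def, map_smul, smul_eq_mul, mul_comm]
  · constructor
    · intro hy
      refine im_of_TT H y.2 (hpp y) fun z hz => ?_
      have h1 : τ y ⟨z, hz⟩ = 0 := by
        rw [hone, LinearMap.mem_ker.1 hy, LinearMap.zero_apply, map_zero]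
      exact h1
    · rintro ⟨a, ha⟩
      rw [LinearMap.mem_ker]
      refine LinearMap.ext fun z => ?_
      rw [LinearMap.zero_apply]
      refine hfT_nondeg fun c => ?_
      rw [← hb, hbal]
      exact TT_of_im H ha (c • z).2 (hpp y)

/-- the projection of the Selmer space -/
def prS (S : FSys G) (j : ∀ i, D i →* G) (A : G →* Matrix (Fin n) (Fin n) F) (ε : G → ZMod 2)
    (sp : I → Prop) (X : ∀ i, Submodule F (D i → Fin n → F)) :
    Sel S j A ε sp X →ₗ[F] Str S j A sp X where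
  toFun z := ⟨z.1.2, z.2.1⟩
  map_add' _ _ := rfl
  map_smul' _ _ := rfl

/-- the kernel of the projection -/
def relS (S : FSys G) (j : ∀ i, D i →* G) (A : G →* Matrix (Fin n) (Fin n) F) (ε : G → ZMod 2)
    (sp : I → Prop) (X : ∀ i, Submodule F (D i → Fin n → F)) :
    Rel S j A sp X →ₗ[F] Sel S j A ε sp X where
  toFun z := ⟨(z.1, 0), (Str S j A sp X).zero_mem, z.2.1.1, fun g h => by
    show z.1 (g * h) = z.1 g + A g *ᵥ z.1 h + ε g • (A g *ᵥ 0)
    rw [mulVec_zero, smul_zero, add_zero]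
    exact z.2.1.2 g h, z.2.2⟩
  map_add' z z' := by
    refine Subtype.ext (Prod.ext rfl ?_)
    show (0 : G → Fin n → F) = 0 + 0
    rw [add_zero]
  map_smul' c z := by
    refine Subtype.ext (Prod.ext rfl ?_)
    show (0 : G → Fin n → F) = c • 0
    rw [smul_zero]

theorem relS_inj : Function.Injective (relS S j A ε sp X) := by
  intro z z' h
  exact Subtype.ext (congrArg (fun w : Sel S j A ε sp X => w.1.1) h)

theorem relS_range : LinearMap.range (relS S j A ε sp X) = LinearMap.ker (prS S j A ε sp X) := by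
  ext w
  constructor
  · rintro ⟨z, rfl⟩
    rfl
  · intro hw
    have h1 : w.1.2 = 0 := congrArg Subtype.val (LinearMap.mem_ker.1 hw)
    obtain ⟨⟨a, y⟩, h2, h3, h4, h5⟩ := w
    dsimp only at h1 h2 h3 h4 h5
    subst h1
    refine ⟨⟨a, ⟨h3, fun g h => ?_⟩, h5⟩, rfl⟩
    have h6 := h4 g h
    have h7 : ε g • (A g *ᵥ (0 : G → Fin n → F) h) = 0 := by
      show ε g • (A g *ᵥ 0) = 0
      rw [mulVec_zero, smul_zero]
    rw [h7, add_zero] at h6
    exact h6

open scoped Classical in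
/-- THE KRAMER STEP -/
theorem kramer (H : KH S SD j χ inv tr A ε sp X t) {m : ℕ}
    (hm : Module.finrank F (LocN SD j A sp) = Module.finrank F (CobN SD j A sp) + 2 * m) :
    FiniteDimensional F (Sel S j A ε sp X) ∧
      Even (Module.finrank F (Sel S j A ε sp X) + m + ∑ i, if sp i then 0 else t i) := by
  have hf1 := H.finRel
  have hf2 := H.finStr
  have hfdR : FiniteDimensional F (Rel S j A sp X) := Module.Finite.of_finite
  have hfdS : FiniteDimensional F (Str S j A sp X) := Module.Finite.of_finite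
  obtain ⟨b, hb1, hb2, hb3, hb4⟩ := exists_form H
  have h1 := sym_rank b hb1 ⟨kc A, kc_Str H⟩ hb2
  rw [hb3] at h1
  have h2 : LinearMap.range (prS S j A ε sp X) = LinearMap.ker b := by
    ext y
    rw [hb4]
    constructor
    · rintro ⟨z, rfl⟩
      exact ⟨z.1.1, z.2⟩
    · rintro ⟨a, ha⟩
      exact ⟨⟨(a, y.1), ha⟩, rfl⟩
  have hfd : FiniteDimensional F (Sel S j A ε sp X) := by
    have h3 : (⊤ : Submodule F (Sel S j A ε sp X)).FG := by
      refine Submodule.fg_of_fg_map_of_fg_inf_ker (prS S j A ε sp X) ?_ ?_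
      · exact IsNoetherian.noetherian _
      · rw [top_inf_eq, ← relS_range, LinearMap.range_eq_map]
        exact Submodule.FG.map _ Module.Finite.fg_top
    exact ⟨h3⟩
  refine ⟨hfd, ?_⟩
  have h3 := LinearMap.finrank_range_add_finrank_ker (prS S j A ε sp X)
  rw [h2, ← relS_range, LinearMap.finrank_range_of_inj relS_inj] at h3
  have h4 := rel_str H
  rw [hm] at h4
  have h5 : Module.finrank F (Rel S j A sp X) = Module.finrank F (Str S j A sp X) + m := by omega
  -- parity
  have h6 : ((Module.finrank F (Sel S j A ε sp X) + m + ∑ i, if sp i then 0 else t i : ℕ) : F) =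
      0 := by
    rw [← h3, h5]
    push_cast at h1 ⊢
    rw [h1]
    linear_combination (norm := (ring_nf; reduce_mod_char!))
  rw [CharP.cast_eq_zero_iff F 2] at h6
  exact even_iff_two_dvd.2 h6

end main

end Pool.Agent.Work.MP_787500_nt.KT
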